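import Mathlib

/-!
Abstract circle systems: a partition of arcs for every state, changing by a merge or a split when
one crossing is changed. The Khovanov complex of such a system, `d ∘ d = 0`, and the relation
`d ν - ν d = 2 d_T`.
-/

namespace Pool.Agent.MP_f5aac0_gt

open Classical

/-- Join of an equivalence relation with one pair. -/
def Jn1 {A : Type} (R : A → A → Prop) (p q a b : A) : Prop :=
  R a b ∨ (R a p ∧ R q b) ∨ (R a q ∧ R p b)

structure Sys (n : ℕ) (A : Type) where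
  P : Finset (Fin n) → Setoid A
  p : Fin n → A
  q : Fin n → A
  ax : ∀ S i, i ∉ S →
    (¬ P S (p i) (q i) ∧ ∀ a b, P (insert i S) a b ↔ Jn1 (P S) (p i) (q i) a b) ∨
    (¬ P (insert i S) (p i) (q i) ∧ ∀ a b, P S a b ↔ Jn1 (P (insert i S)) (p i) (q i) a b)

section ND
variable {A : Type}

def ND (R : Setoid A) (T : Multiset A) : Prop := (T.map (Quotient.mk R)).Nodup

def Hit (R : Setoid A) (T : Multiset A) (a : A) : Prop := ∃ t ∈ T, R a t

lemma hit_iff (R : Setoid A) (T : Multiset A) (a : A) :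
    Hit R T a ↔ Quotient.mk R a ∈ T.map (Quotient.mk R) := by
  simp only [Hit, Multiset.mem_map]
  constructor
  · rintro ⟨t, ht, h⟩; exact ⟨t, ht, Quotient.sound (R.symm h)⟩
  · rintro ⟨t, ht, h⟩; exact ⟨t, ht, R.symm (Quotient.exact h)⟩

lemma nd_cons (R : Setoid A) (T : Multiset A) (a : A) :
    ND R (a ::ₘ T) ↔ ¬ Hit R T a ∧ ND R T := by
  simp only [ND, Multiset.map_cons, Multiset.nodup_cons, hit_iff]

lemma hit_cons (R : Setoid A) (T : Multiset A) (a b : A) :
    Hit R (a ::ₘ T) b ↔ R b a ∨ Hit R T b := by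
  simp [Hit]

lemma Hit.congr {R : Setoid A} {T : Multiset A} {a b : A} (h : Hit R T a) (hab : R a b) :
    Hit R T b := by
  obtain ⟨t, ht, h⟩ := h
  exact ⟨t, ht, R.trans (R.symm hab) h⟩

lemma nd_iff (R : Setoid A) (T : Multiset A) :
    ND R T ↔ T.Nodup ∧ ∀ x ∈ T, ∀ y ∈ T, R x y → x = y := by
  constructor
  · intro h
    have h1 : T.Nodup := Multiset.Nodup.of_map _ h
    refine ⟨h1, fun x hx y hy hxy => ?_⟩
    exact (Multiset.nodup_map_iff_inj_on h1).1 h x hx y hy (Quotient.sound hxy)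
  · rintro ⟨h1, h2⟩
    exact (Multiset.nodup_map_iff_inj_on h1).2 fun x hx y hy hxy => h2 x hx y hy (Quotient.exact hxy)

lemma ND.mono {R R' : Setoid A} (h : ∀ a b, R a b → R' a b) {T : Multiset A} (hT : ND R' T) :
    ND R T := by
  rw [nd_iff] at hT ⊢
  exact ⟨hT.1, fun x hx y hy hxy => hT.2 x hx y hy (h _ _ hxy)⟩

lemma ND.erase {R : Setoid A} {T : Multiset A} (hT : ND R T) (t : A) : ND R (T.erase t) := by
  rw [nd_iff] at hT ⊢
  exact ⟨hT.1.erase t, fun x hx y hy hxy =>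
    hT.2 x (Multiset.mem_of_mem_erase hx) y (Multiset.mem_of_mem_erase hy) hxy⟩

end ND

namespace Sys

variable {n : ℕ} {A : Type} (Y : Sys n A)

lemma merge_iff {S : Finset (Fin n)} {i : Fin n} (hi : i ∉ S) (h : ¬ Y.P S (Y.p i) (Y.q i))
    (a b : A) : Y.P (insert i S) a b ↔ Jn1 (Y.P S) (Y.p i) (Y.q i) a b := by
  rcases Y.ax S i hi with ⟨_, h2⟩ | ⟨_, h2⟩
  · exact h2 a b
  · exact absurd ((h2 _ _).2 (Or.inr (Or.inl ⟨(Y.P _).refl _, (Y.P _).refl _⟩))) h

lemma merge_pq {S : Finset (Fin n)} {i : Fin n} (hi : i ∉ S) (h : ¬ Y.P S (Y.p i) (Y.q i)) :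
    Y.P (insert i S) (Y.p i) (Y.q i) :=
  (Y.merge_iff hi h _ _).2 (Or.inr (Or.inl ⟨(Y.P _).refl _, (Y.P _).refl _⟩))

lemma merge_le {S : Finset (Fin n)} {i : Fin n} (hi : i ∉ S) (h : ¬ Y.P S (Y.p i) (Y.q i))
    {a b : A} (hab : Y.P S a b) : Y.P (insert i S) a b := (Y.merge_iff hi h a b).2 (Or.inl hab)

lemma split_not {S : Finset (Fin n)} {i : Fin n} (hi : i ∉ S) (h : Y.P S (Y.p i) (Y.q i)) :
    ¬ Y.P (insert i S) (Y.p i) (Y.q i) := by
  rcases Y.ax S i hi with ⟨h1, _⟩ | ⟨h1, _⟩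
  · exact absurd h h1
  · exact h1

lemma split_iff {S : Finset (Fin n)} {i : Fin n} (hi : i ∉ S) (h : Y.P S (Y.p i) (Y.q i))
    (a b : A) : Y.P S a b ↔ Jn1 (Y.P (insert i S)) (Y.p i) (Y.q i) a b := by
  rcases Y.ax S i hi with ⟨h1, _⟩ | ⟨_, h2⟩
  · exact absurd h h1
  · exact h2 a b

lemma split_le {S : Finset (Fin n)} {i : Fin n} (hi : i ∉ S) (h : Y.P S (Y.p i) (Y.q i))
    {a b : A} (hab : Y.P (insert i S) a b) : Y.P S a b := (Y.split_iff hi h a b).2 (Or.inl hab)

/-- The edge operator on functions of monomials. -/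
noncomputable def ed {M : Type} [AddCommMonoid M] (S : Finset (Fin n)) (i : Fin n)
    (F : Multiset A → M) (T : Multiset A) : M :=
  if Y.P S (Y.p i) (Y.q i) then F (Y.p i ::ₘ T) + F (Y.q i ::ₘ T) else F T

def Inv {M : Type} (R : Setoid A) (F : Multiset A → M) : Prop :=
  ∀ a b T, R a b → F (a ::ₘ T) = F (b ::ₘ T)

lemma ed_comm {M : Type} [AddCommMonoid M] {S : Finset (Fin n)} {i j : Fin n} (hi : i ∉ S)
    (hj : j ∉ S) (hij : i ≠ j) (F : Multiset A → M) (hF : Inv (Y.P (insert j (insert i S))) F)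
    (T : Multiset A) :
    Y.ed S i (Y.ed (insert i S) j F) T = Y.ed S j (Y.ed (insert j S) i F) T := by
  have hj' : j ∉ insert i S := by simp [hj, hij.symm]
  have hi' : i ∉ insert j S := by simp [hi, hij]
  have hc : insert i (insert j S) = insert j (insert i S) := Finset.insert_comm _ _ _
  by_cases a : Y.P S (Y.p i) (Y.q i) <;> by_cases b : Y.P S (Y.p j) (Y.q j) <;>
    by_cases a' : Y.P (insert j S) (Y.p i) (Y.q i) <;>
    by_cases b' : Y.P (insert i S) (Y.p j) (Y.q j) <;>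
    simp only [ed, a, b, a', b', if_true, if_false]
  · rw [Multiset.cons_swap (Y.p j) (Y.p i), Multiset.cons_swap (Y.q j) (Y.p i),
      Multiset.cons_swap (Y.p j) (Y.q i), Multiset.cons_swap (Y.q j) (Y.q i)]
    abel
  · exact absurd (hc ▸ Y.merge_pq hj' b') (fun h => Y.split_not hj b (Y.split_le hi' a' h))
  · exact absurd (hc.symm ▸ Y.merge_pq hi' a') (fun h => Y.split_not hi a (Y.split_le hj' b' h))
  · have h1 : Y.P (insert j (insert i S)) (Y.p i) (Y.q i) := hc ▸ Y.merge_pq hi' a'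
    have h2 := Y.merge_pq hj' b'
    have h3 : Y.P (insert j (insert i S)) (Y.p j) (Y.p i) := by
      rcases (Y.split_iff hi a _ _).1 b with h | h | h
      · exact absurd h b'
      · exact Y.merge_le hj' b' h.1
      · exact (Y.P _).trans (Y.merge_le hj' b' h.1) ((Y.P _).symm h1)
    rw [← hF _ _ T h1, ← hF _ _ T h2, hF _ _ T h3]
  · exact absurd (Y.split_le hi a b') b
  · exact absurd (Y.split_le hi a b') b
  · exact absurd (Y.merge_le hj b a) a'
  · exact absurd (Y.split_le hj b a') a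
  · exact absurd (Y.split_le hj b a') a
  · exact absurd (Y.merge_le hi a b) b'
  · have h1 := Y.merge_pq hi a
    have h2 : ¬ Y.P (insert j (insert i S)) (Y.p i) (Y.q i) := hc ▸ Y.split_not hi' a'
    rcases (Y.split_iff hj' b' _ _).1 h1 with h | h | h
    · exact absurd h h2
    · rw [hF _ _ T h.1, hF _ _ T h.2]
    · rw [hF _ _ T h.1, hF _ _ T h.2, add_comm]
  · exact absurd (Y.merge_le hj' b' (Y.merge_pq hi a)) (hc ▸ Y.split_not hi' a')
  · exact absurd (Y.merge_le hi' a' (Y.merge_pq hj b)) (hc.symm ▸ Y.split_not hj' b')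

def Enh : Type :=
  {x : Finset (Fin n) × (A → Bool) // ∀ a b, Y.P x.1 a b → x.2 a = x.2 b}

noncomputable instance [Fintype A] : Fintype Y.Enh := by
  unfold Enh
  infer_instance

def Inc (i : Fin n) (x y : Y.Enh) : Prop :=
  i ∉ x.1.1 ∧ y.1.1 = insert i x.1.1 ∧
  (∀ a, ¬ Y.P x.1.1 a (Y.p i) → ¬ Y.P x.1.1 a (Y.q i) → y.1.2 a = x.1.2 a) ∧
  (Y.P x.1.1 (Y.p i) (Y.q i) → (x.1.2 (Y.p i), y.1.2 (Y.p i), y.1.2 (Y.q i)) ∈
    ({(true, true, false), (true, false, true), (false, false, false)} : Set (Bool × Bool × Bool))) ∧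
  (¬ Y.P x.1.1 (Y.p i) (Y.q i) → (x.1.2 (Y.p i), x.1.2 (Y.q i), y.1.2 (Y.p i)) ∈
    ({(true, true, true), (true, false, false), (false, true, false)} : Set (Bool × Bool × Bool)))

/-- The enhanced state with label `x` exactly on the circles met by `T`. -/
noncomputable def lab (S : Finset (Fin n)) (T : Multiset A) : Y.Enh :=
  ⟨(S, fun a => decide (¬ Hit (Y.P S) T a)), fun a b h => by
    simp only [decide_eq_decide]
    exact not_congr ⟨fun h1 => h1.congr h, fun h1 => h1.congr ((Y.P S).symm h)⟩⟩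

@[simp] lemma lab_fst (S : Finset (Fin n)) (T : Multiset A) : (Y.lab S T).1.1 = S := rfl

@[simp] lemma lab_true (S : Finset (Fin n)) (T : Multiset A) (a : A) :
    (Y.lab S T).1.2 a = true ↔ ¬ Hit (Y.P S) T a := by simp [lab]

@[simp] lemma lab_false (S : Finset (Fin n)) (T : Multiset A) (a : A) :
    (Y.lab S T).1.2 a = false ↔ Hit (Y.P S) T a := by simp [lab]

lemma eq_lab {y : Y.Enh} {S : Finset (Fin n)} {T : Multiset A} :
    y = Y.lab S T ↔ y.1.1 = S ∧ ∀ a, (y.1.2 a = false ↔ Hit (Y.P S) T a) := by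
  constructor
  · rintro rfl; simp
  · rintro ⟨h1, h2⟩
    apply Subtype.ext
    apply Prod.ext h1
    funext a
    have := h2 a
    rw [← Y.lab_false S T a] at this
    revert this
    cases y.1.2 a <;> cases (Y.lab S T).1.2 a <;> simp

lemma inc_lab (i : Fin n) (S : Finset (Fin n)) (T : Multiset A) (y : Y.Enh) :
    Y.Inc i (Y.lab S T) y ↔ i ∉ S ∧ y.1.1 = insert i S ∧
  (∀ a, ¬ Y.P S a (Y.p i) → ¬ Y.P S a (Y.q i) → y.1.2 a = (Y.lab S T).1.2 a) ∧
  (Y.P S (Y.p i) (Y.q i) → ((Y.lab S T).1.2 (Y.p i), y.1.2 (Y.p i), y.1.2 (Y.q i)) ∈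
    ({(true, true, false), (true, false, true), (false, false, false)} : Set (Bool × Bool × Bool))) ∧
  (¬ Y.P S (Y.p i) (Y.q i) → ((Y.lab S T).1.2 (Y.p i), (Y.lab S T).1.2 (Y.q i), y.1.2 (Y.p i)) ∈
    ({(true, true, true), (true, false, false), (false, true, false)} :
      Set (Bool × Bool × Bool))) := Iff.rfl

lemma inc_merge {S : Finset (Fin n)} {i : Fin n} (hi : i ∉ S) (h : ¬ Y.P S (Y.p i) (Y.q i))
    {T : Multiset A} (hT : ND (Y.P S) T) (y : Y.Enh) :
    Y.Inc i (Y.lab S T) y ↔ ND (Y.P (insert i S)) T ∧ y = Y.lab (insert i S) T := by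
  have hm := Y.merge_iff hi h
  have hoff : ∀ a, ¬ Y.P S a (Y.p i) → ¬ Y.P S a (Y.q i) →
      (Hit (Y.P (insert i S)) T a ↔ Hit (Y.P S) T a) := by
    intro a h1 h2
    constructor
    · rintro ⟨t, ht, h3⟩
      rcases (hm _ _).1 h3 with h4 | h4 | h4
      · exact ⟨t, ht, h4⟩
      · exact absurd h4.1 h1
      · exact absurd h4.1 h2
    · rintro ⟨t, ht, h3⟩; exact ⟨t, ht, Y.merge_le hi h h3⟩
  have hp : Hit (Y.P (insert i S)) T (Y.p i) ↔ Hit (Y.P S) T (Y.p i) ∨ Hit (Y.P S) T (Y.q i) := by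
    constructor
    · rintro ⟨t, ht, h3⟩
      rcases (hm _ _).1 h3 with h4 | h4 | h4
      · exact Or.inl ⟨t, ht, h4⟩
      · exact Or.inr ⟨t, ht, h4.2⟩
      · exact Or.inl ⟨t, ht, h4.2⟩
    · rintro (⟨t, ht, h3⟩ | ⟨t, ht, h3⟩)
      · exact ⟨t, ht, Y.merge_le hi h h3⟩
      · exact ⟨t, ht, (Y.P _).trans (Y.merge_pq hi h) (Y.merge_le hi h h3)⟩
  have hnd : ND (Y.P (insert i S)) T ↔ ¬ (Hit (Y.P S) T (Y.p i) ∧ Hit (Y.P S) T (Y.q i)) := by
    constructor
    · rintro h1 ⟨⟨t, ht, h2⟩, ⟨s, hs, h3⟩⟩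
      have : t = s := ((nd_iff _ _).1 h1).2 t ht s hs
        ((hm _ _).2 (Or.inr (Or.inl ⟨(Y.P S).symm h2, h3⟩)))
      subst this
      exact h ((Y.P S).trans h2 ((Y.P S).symm h3))
    · intro h1
      rw [nd_iff] at hT ⊢
      refine ⟨hT.1, fun x hx z hz hxz => ?_⟩
      rcases (hm _ _).1 hxz with h4 | h4 | h4
      · exact hT.2 x hx z hz h4
      · exact absurd ⟨⟨x, hx, (Y.P S).symm h4.1⟩, ⟨z, hz, h4.2⟩⟩ h1
      · exact absurd ⟨⟨z, hz, h4.2⟩, ⟨x, hx, (Y.P S).symm h4.1⟩⟩ h1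
  rw [hnd, eq_lab, inc_lab]
  simp only [hi, h, not_false_eq_true, true_and, false_imp_iff, true_imp_iff,
    Set.mem_insert_iff, Set.mem_singleton_iff, Prod.mk.injEq, lab_true, lab_false]
  constructor
  · rintro ⟨h1, h2, h3⟩
    refine ⟨by tauto, h1, fun a => ?_⟩
    have hy := y.2
    rw [h1] at hy
    by_cases ha : Y.P S a (Y.p i) ∨ Y.P S a (Y.q i)
    · have ha' : Y.P (insert i S) a (Y.p i) := by
        rcases ha with ha | ha
        · exact Y.merge_le hi h ha
        · exact (Y.P _).trans (Y.merge_le hi h ha) ((Y.P _).symm (Y.merge_pq hi h))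
      have : Hit (Y.P (insert i S)) T a ↔ Hit (Y.P (insert i S)) T (Y.p i) :=
        ⟨fun h5 => h5.congr ha', fun h5 => h5.congr ((Y.P _).symm ha')⟩
      rw [this, hp, hy _ _ ha']
      rcases h3 with h3 | h3 | h3 <;> simp [h3]
    · push Not at ha
      rw [h2 a ha.1 ha.2, hoff a ha.1 ha.2, lab_false]
  · rintro ⟨h1, h2, h3⟩
    refine ⟨h2, fun a ha hb => ?_, ?_⟩
    · have := h3 a
      rw [hoff a ha hb, ← Y.lab_false S T a] at this
      revert this
      cases y.1.2 a <;> cases (Y.lab S T).1.2 a <;> simp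
    · have := h3 (Y.p i)
      rw [hp] at this
      revert this
      cases y.1.2 (Y.p i) <;> simp <;> tauto

lemma inc_split {S : Finset (Fin n)} {i : Fin n} (hi : i ∉ S) (h : Y.P S (Y.p i) (Y.q i))
    {T : Multiset A} (hT : ND (Y.P S) T) (y : Y.Enh) :
    Y.Inc i (Y.lab S T) y ↔
      (ND (Y.P (insert i S)) (Y.p i ::ₘ T) ∧ y = Y.lab (insert i S) (Y.p i ::ₘ T)) ∨
      (ND (Y.P (insert i S)) (Y.q i ::ₘ T) ∧ y = Y.lab (insert i S) (Y.q i ::ₘ T)) := by
  have hm := Y.split_iff hi h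
  have hn := Y.split_not hi h
  have hT' : ND (Y.P (insert i S)) T := hT.mono fun _ _ => Y.split_le hi h
  have hoff : ∀ a, ¬ Y.P S a (Y.p i) →
      (Hit (Y.P (insert i S)) T a ↔ Hit (Y.P S) T a) := by
    intro a h1
    constructor
    · rintro ⟨t, ht, h3⟩; exact ⟨t, ht, Y.split_le hi h h3⟩
    · rintro ⟨t, ht, h3⟩
      rcases (hm _ _).1 h3 with h4 | h4 | h4
      · exact ⟨t, ht, h4⟩
      · exact absurd (Y.split_le hi h h4.1) h1
      · exact absurd ((Y.P S).trans (Y.split_le hi h h4.1) ((Y.P S).symm h)) h1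
  have hp : Hit (Y.P S) T (Y.p i) ↔
      Hit (Y.P (insert i S)) T (Y.p i) ∨ Hit (Y.P (insert i S)) T (Y.q i) := by
    constructor
    · rintro ⟨t, ht, h3⟩
      rcases (hm _ _).1 h3 with h4 | h4 | h4
      · exact Or.inl ⟨t, ht, h4⟩
      · exact Or.inr ⟨t, ht, h4.2⟩
      · exact Or.inl ⟨t, ht, h4.2⟩
    · rintro (⟨t, ht, h3⟩ | ⟨t, ht, h3⟩)
      · exact ⟨t, ht, Y.split_le hi h h3⟩
      · exact ⟨t, ht, (Y.P _).trans h (Y.split_le hi h h3)⟩
  have hb : ¬ (Hit (Y.P (insert i S)) T (Y.p i) ∧ Hit (Y.P (insert i S)) T (Y.q i)) := by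
    rintro ⟨⟨t, ht, h2⟩, ⟨s, hs, h3⟩⟩
    have : t = s := ((nd_iff _ _).1 hT).2 t ht s hs
      ((hm _ _).2 (Or.inr (Or.inl ⟨(Y.P _).symm h2, h3⟩)))
    subst this
    exact hn ((Y.P _).trans h2 ((Y.P _).symm h3))
  have hon : ∀ a, Y.P S a (Y.p i) →
      Y.P (insert i S) a (Y.p i) ∨ Y.P (insert i S) a (Y.q i) := by
    intro a ha
    rcases (hm _ _).1 ha with h4 | h4 | h4
    · exact Or.inl h4
    · exact Or.inl h4.1
    · exact Or.inr h4.1
  have hr := (Y.P (insert i S)).refl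
  have hn' : ¬ Y.P (insert i S) (Y.q i) (Y.p i) := fun h5 => hn ((Y.P _).symm h5)
  have key : ∀ r, Y.P S r (Y.p i) → (y = Y.lab (insert i S) (r ::ₘ T) ↔ y.1.1 = insert i S ∧
      (∀ a, ¬ Y.P S a (Y.p i) → ¬ Y.P S a (Y.q i) → y.1.2 a = (Y.lab S T).1.2 a) ∧
      (y.1.2 (Y.p i) = false ↔ Hit (Y.P (insert i S)) (r ::ₘ T) (Y.p i)) ∧
      (y.1.2 (Y.q i) = false ↔ Hit (Y.P (insert i S)) (r ::ₘ T) (Y.q i))) := by
    intro r hr'
    rw [eq_lab]
    constructor
    · rintro ⟨h1, h2⟩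
      refine ⟨h1, fun a ha _ => ?_, h2 _, h2 _⟩
      have := h2 a
      have h6 : ¬ Y.P (insert i S) a r := fun h7 => ha ((Y.P S).trans (Y.split_le hi h h7) hr')
      rw [hit_cons, hoff a ha, ← Y.lab_false S T a] at this
      simp only [h6, false_or] at this
      revert this
      cases y.1.2 a <;> cases (Y.lab S T).1.2 a <;> simp
    · rintro ⟨h1, h2, h3, h4⟩
      refine ⟨h1, fun a => ?_⟩
      have hy := y.2
      rw [h1] at hy
      by_cases ha : Y.P S a (Y.p i)
      · rcases hon a ha with h5 | h5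
        · rw [hy _ _ h5, h3]
          exact ⟨fun h6 => h6.congr ((Y.P _).symm h5), fun h6 => h6.congr h5⟩
        · rw [hy _ _ h5, h4]
          exact ⟨fun h6 => h6.congr ((Y.P _).symm h5), fun h6 => h6.congr h5⟩
      · have h6 : ¬ Y.P (insert i S) a r := fun h7 => ha ((Y.P S).trans (Y.split_le hi h h7) hr')
        rw [h2 a ha (fun h7 => ha ((Y.P S).trans h7 ((Y.P S).symm h))), hit_cons, hoff a ha,
          lab_false]
        simp [h6]
  rw [key _ ((Y.P S).refl _), key _ ((Y.P S).symm h), nd_cons, nd_cons, inc_lab]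
  simp only [hi, h, not_false_eq_true, true_and, false_imp_iff, true_imp_iff,
    Set.mem_insert_iff, Set.mem_singleton_iff, Prod.mk.injEq, lab_true, lab_false, hit_cons,
    hT', hp, hn, hn', not_true_eq_false, and_true, false_or]
  have h1 := hr (Y.p i)
  have h2 := hr (Y.q i)
  cases y.1.2 (Y.p i) <;> cases y.1.2 (Y.q i) <;> simp [h1, h2] <;> tauto

end Sys

end Pool.Agent.MP_f5aac0_gt

/-!
The integral complex of a circle system: `d ∘ d = 0` and `d ν - ν d = 2 d_T`.
-/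

namespace Pool.Agent.MP_f5aac0_gt

open Classical

namespace Sys

variable {n : ℕ} {A : Type} [Fintype A] (Y : Sys n A)

noncomputable def X (S : Finset (Fin n)) (T : Multiset A) : Y.Enh → ℤ :=
  if ND (Y.P S) T then Pi.single (Y.lab S T) 1 else 0

omit [Fintype A] in
lemma lab_congr {S : Finset (Fin n)} {T T' : Multiset A}
    (h : T.map (Quotient.mk (Y.P S)) = T'.map (Quotient.mk (Y.P S))) : Y.lab S T = Y.lab S T' := by
  rw [eq_lab]
  refine ⟨rfl, fun a => ?_⟩
  rw [lab_false, hit_iff, hit_iff, h]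

omit [Fintype A] in
lemma X_congr {S : Finset (Fin n)} {T T' : Multiset A}
    (h : T.map (Quotient.mk (Y.P S)) = T'.map (Quotient.mk (Y.P S))) : Y.X S T = Y.X S T' := by
  unfold X
  rw [Y.lab_congr h]
  unfold ND
  rw [h]

omit [Fintype A] in
lemma X_inv (S : Finset (Fin n)) : Inv (Y.P S) (Y.X S) := fun a b T h =>
  Y.X_congr (by rw [Multiset.map_cons, Multiset.map_cons, Quotient.sound h])

/-- Representatives of the circles labelled `x`. -/
noncomputable def reps (x : Y.Enh) : Multiset A :=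
  ((Finset.univ.filter fun c : Quotient (Y.P x.1.1) => x.1.2 c.out = false).val).map Quotient.out

lemma reps_map (x : Y.Enh) : (Y.reps x).map (Quotient.mk (Y.P x.1.1)) =
    (Finset.univ.filter fun c : Quotient (Y.P x.1.1) => x.1.2 c.out = false).val := by
  simp [reps, Multiset.map_map]

lemma nd_reps (x : Y.Enh) : ND (Y.P x.1.1) (Y.reps x) := by
  unfold ND
  rw [reps_map]
  exact Finset.nodup _

lemma hit_reps (x : Y.Enh) (a : A) : Hit (Y.P x.1.1) (Y.reps x) a ↔ x.1.2 a = false := by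
  rw [hit_iff, reps_map]
  simp only [Finset.mem_val, Finset.mem_filter, Finset.mem_univ, true_and]
  rw [x.2 _ a (Quotient.mk_out (s := Y.P x.1.1) a)]

lemma lab_reps (x : Y.Enh) : Y.lab x.1.1 (Y.reps x) = x :=
  (Y.eq_lab.2 ⟨rfl, fun a => (Y.hit_reps x a).symm⟩).symm

lemma reps_lab {S : Finset (Fin n)} {T : Multiset A} (hT : ND (Y.P S) T) :
    (Y.reps (Y.lab S T)).map (Quotient.mk (Y.P S)) = T.map (Quotient.mk (Y.P S)) := by
  have h1 : ND (Y.P S) (Y.reps (Y.lab S T)) := Y.nd_reps (Y.lab S T)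
  refine (Multiset.Nodup.ext h1 hT).2 fun c => ?_
  obtain ⟨a, rfl⟩ := Quotient.exists_rep c
  rw [← hit_iff, ← hit_iff, ← Y.lab_false S T a]
  exact Y.hit_reps (Y.lab S T) a

lemma single_eq_X (x : Y.Enh) : (Pi.single x 1 : Y.Enh → ℤ) = Y.X x.1.1 (Y.reps x) := by
  unfold X
  rw [if_pos (Y.nd_reps x), lab_reps]

/-- A linear map out of the chain group is determined on the monomials. -/
lemma ext_X {M : Type} [AddCommGroup M] {f g : (Y.Enh → ℤ) →ₗ[ℤ] M}
    (h : ∀ S T, ND (Y.P S) T → f (Y.X S T) = g (Y.X S T)) : f = g := by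
  refine (Pi.basisFun ℤ Y.Enh).ext fun x => ?_
  rw [Pi.basisFun_apply, single_eq_X]
  exact h _ _ (Y.nd_reps x)

noncomputable def E (i : Fin n) : (Y.Enh → ℤ) →ₗ[ℤ] (Y.Enh → ℤ) :=
  Matrix.mulVecLin fun y x => if Y.Inc i x y then 1 else 0

lemma E_single (i : Fin n) (x y : Y.Enh) :
    Y.E i (Pi.single x 1) y = if Y.Inc i x y then 1 else 0 := by
  simp [E, Matrix.mulVec_single]

lemma E_X {S : Finset (Fin n)} {i : Fin n} (hi : i ∉ S) (T : Multiset A) :
    Y.E i (Y.X S T) = Y.ed S i (Y.X (insert i S)) T := by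
  by_cases hT : ND (Y.P S) T
  · funext y
    rw [X, if_pos hT, E_single]
    unfold ed
    by_cases h : Y.P S (Y.p i) (Y.q i)
    · rw [if_pos h, Y.inc_split hi h hT]
      have hne : ND (Y.P (insert i S)) (Y.p i ::ₘ T) → ND (Y.P (insert i S)) (Y.q i ::ₘ T) →
          Y.lab (insert i S) (Y.p i ::ₘ T) ≠ Y.lab (insert i S) (Y.q i ::ₘ T) := by
        intro h1 h2 h3
        have h4 := (Y.eq_lab.1 h3).2 (Y.p i)
        rw [lab_false, hit_cons, hit_cons] at h4
        have h5 := h4.1 (Or.inl ((Y.P _).refl _))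
        rw [nd_cons] at h1
        rcases h5 with h5 | h5
        · exact Y.split_not hi h h5
        · exact h1.1 h5
      simp only [X, Pi.add_apply]
      by_cases h1 : ND (Y.P (insert i S)) (Y.p i ::ₘ T) <;>
        by_cases h2 : ND (Y.P (insert i S)) (Y.q i ::ₘ T) <;>
        simp only [h1, h2, true_and, false_and, if_true, if_false, Pi.single_apply, Pi.zero_apply,
          or_false, false_or, add_zero, zero_add]
      by_cases h3 : y = Y.lab (insert i S) (Y.p i ::ₘ T)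
      · have h4 : y ≠ Y.lab (insert i S) (Y.q i ::ₘ T) := fun h4 => hne h1 h2 (h3.symm.trans h4)
        simp [if_pos h3, if_neg h4, if_pos (Or.inl h3 : _ ∨ y = Y.lab (insert i S) (Y.q i ::ₘ T))]
      · simp [h3]
    · rw [if_neg h, Y.inc_merge hi h hT]
      simp only [X]
      by_cases h1 : ND (Y.P (insert i S)) T <;> simp [h1, Pi.single_apply]
  · rw [X, if_neg hT, map_zero]
    unfold ed
    by_cases h : Y.P S (Y.p i) (Y.q i)
    · rw [if_pos h]
      have key : ¬ ND (Y.P (insert i S)) (Y.p i ::ₘ T) ∧ ¬ ND (Y.P (insert i S)) (Y.q i ::ₘ T) := by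
        by_contra hc
        apply hT
        have hT' : ND (Y.P (insert i S)) T := by
          by_contra h2
          simp [nd_cons, h2] at hc
        have hb : ¬ (Hit (Y.P (insert i S)) T (Y.p i) ∧ Hit (Y.P (insert i S)) T (Y.q i)) := by
          intro h2
          simp [nd_cons, h2.1, h2.2] at hc
        rw [nd_iff] at hT' ⊢
        refine ⟨hT'.1, fun x hx z hz hxz => ?_⟩
        rcases (Y.split_iff hi h _ _).1 hxz with h4 | h4 | h4
        · exact hT'.2 x hx z hz h4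
        · exact absurd ⟨⟨x, hx, (Y.P _).symm h4.1⟩, ⟨z, hz, h4.2⟩⟩ hb
        · exact absurd ⟨⟨z, hz, h4.2⟩, ⟨x, hx, (Y.P _).symm h4.1⟩⟩ hb
      simp [X, key.1, key.2]
    · rw [if_neg h, X, if_neg fun h1 => hT (h1.mono fun _ _ => Y.merge_le hi h)]

lemma E_X_mem {S : Finset (Fin n)} {i : Fin n} (hi : i ∈ S) (T : Multiset A) :
    Y.E i (Y.X S T) = 0 := by
  unfold X
  split_ifs
  · funext y
    rw [E_single, if_neg fun h => h.1 hi]
    rfl
  · simp

def sgn (S : Finset (Fin n)) (i : Fin n) : ℤ := (-1) ^ (S.filter (· < i)).card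

noncomputable def coef (x y : Y.Enh) : ℤ :=
  ∑ i, if Y.Inc i x y then (-1) ^ (x.1.1.filter (· < i)).card else 0

noncomputable def d : (Y.Enh → ℤ) →ₗ[ℤ] (Y.Enh → ℤ) := Matrix.mulVecLin fun y x => Y.coef x y

lemma d_single (x y : Y.Enh) : Y.d (Pi.single x 1) y = Y.coef x y := by
  simp [d, Matrix.mulVec_single]

lemma d_X (S : Finset (Fin n)) (T : Multiset A) :
    Y.d (Y.X S T) = ∑ i, sgn S i • Y.E i (Y.X S T) := by
  unfold X
  split_ifs
  · funext y
    rw [d_single, Finset.sum_apply, coef]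
    refine Finset.sum_congr rfl fun i _ => ?_
    rw [Pi.smul_apply, E_single]
    split_ifs <;> simp [sgn]
  · simp

lemma sgn_anti {S : Finset (Fin n)} {i j : Fin n} (hi : i ∉ S) (hj : j ∉ S) (hij : i ≠ j) :
    sgn S i * sgn (insert i S) j = -(sgn S j * sgn (insert j S) i) := by
  unfold sgn
  rw [Finset.filter_insert, Finset.filter_insert]
  rcases lt_or_gt_of_ne hij with h | h
  · rw [if_pos h, if_neg h.not_gt, Finset.card_insert_of_notMem (by simp [hi])]
    ring
  · rw [if_neg h.not_gt, if_pos h, Finset.card_insert_of_notMem (by simp [hj])]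
    ring

omit [Fintype A] in
lemma map_ed {M M' : Type} [AddCommGroup M] [AddCommGroup M'] (f : M →ₗ[ℤ] M')
    (S : Finset (Fin n)) (i : Fin n) (F : Multiset A → M) (T : Multiset A) :
    f (Y.ed S i F T) = Y.ed S i (fun T => f (F T)) T := by
  unfold ed
  split_ifs <;> simp

lemma d_d (v : Y.Enh → ℤ) : Y.d (Y.d v) = 0 := by
  have : Y.d ∘ₗ Y.d = 0 := by
    refine Y.ext_X fun S T _ => ?_
    rw [LinearMap.comp_apply, LinearMap.zero_apply]
    let f : Fin n → Fin n → (Y.Enh → ℤ) := fun i j =>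
      if i ∉ S ∧ j ∉ S ∧ i ≠ j then
        (sgn S i * sgn (insert i S) j) •
          Y.ed S i (Y.ed (insert i S) j (Y.X (insert j (insert i S)))) T else 0
    have h1 : Y.d (Y.d (Y.X S T)) = ∑ i, ∑ j, f i j := by
      rw [d_X, map_sum]
      refine Finset.sum_congr rfl fun i _ => ?_
      by_cases hi : i ∈ S
      · simp [f, hi, Y.E_X_mem hi]
      · rw [map_smul, Y.E_X hi, map_ed]
        have : ∀ T, Y.d (Y.X (insert i S) T) = ∑ j, if j ∉ S ∧ i ≠ j then
            sgn (insert i S) j • Y.ed (insert i S) j (Y.X (insert j (insert i S))) T else 0 := by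
          intro T
          rw [d_X]
          refine Finset.sum_congr rfl fun j _ => ?_
          by_cases hj : j ∈ insert i S
          · rw [Y.E_X_mem hj, if_neg, smul_zero]
            rw [Finset.mem_insert] at hj
            rintro ⟨h1, h2⟩
            exact hj.elim (fun h => h2 h.symm) h1
          · rw [Y.E_X hj, if_pos]
            rw [Finset.mem_insert, not_or] at hj
            exact ⟨hj.2, fun h => hj.1 h.symm⟩
        simp only [this, f, hi, not_false_eq_true, true_and]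
        unfold ed
        split_ifs with h
        · rw [← Finset.sum_add_distrib, Finset.smul_sum]
          refine Finset.sum_congr rfl fun j _ => ?_
          split_ifs <;> simp [mul_smul]
        · rw [Finset.smul_sum]
          refine Finset.sum_congr rfl fun j _ => ?_
          split_ifs <;> simp [mul_smul]
    have h2 : ∀ i j, f i j = - f j i := by
      intro i j
      by_cases h : i ∉ S ∧ j ∉ S ∧ i ≠ j
      · simp only [f]
        rw [if_pos h, if_pos ⟨h.2.1, h.1, h.2.2.symm⟩, sgn_anti h.1 h.2.1 h.2.2,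
          Y.ed_comm h.1 h.2.1 h.2.2 _ (Y.X_inv _), Finset.insert_comm j i S, neg_smul]
      · simp only [f]
        rw [if_neg h, if_neg fun h' => h ⟨h'.2.1, h'.1, h'.2.2.symm⟩, neg_zero]
    have h3 : ∑ i, ∑ j, f i j = - ∑ i, ∑ j, f i j := by
      conv_rhs => rw [Finset.sum_comm]
      rw [← Finset.sum_neg_distrib]
      refine Finset.sum_congr rfl fun i _ => ?_
      rw [← Finset.sum_neg_distrib]
      exact Finset.sum_congr rfl fun j _ => h2 i j
    rw [h1]
    funext y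
    have := congrFun h3 y
    simp only [Pi.neg_apply, Pi.zero_apply] at this ⊢
    omega
  exact LinearMap.congr_fun this v

/-- Sum of the monomials with one variable removed. -/
noncomputable def N (S : Finset (Fin n)) (T : Multiset A) : Y.Enh → ℤ :=
  (T.map fun t => Y.X S (T.erase t)).sum

omit [Fintype A] in
lemma N_congr {S : Finset (Fin n)} {T T' : Multiset A}
    (h : T.map (Quotient.mk (Y.P S)) = T'.map (Quotient.mk (Y.P S))) : Y.N S T = Y.N S T' := by
  have key : ∀ T : Multiset A, Y.N S T = ((T.map (Quotient.mk (Y.P S))).map fun c =>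
      Y.X S (((T.map (Quotient.mk (Y.P S))).erase c).map Quotient.out)).sum := by
    intro T
    rw [N, Multiset.map_map]
    congr 1
    refine Multiset.map_congr rfl fun t ht => Y.X_congr ?_
    rw [Multiset.map_erase_of_mem _ _ ht]
    simp [Multiset.map_map]
  rw [key, key, h]

omit [Fintype A] in
lemma N_cons (S : Finset (Fin n)) (a : A) (T : Multiset A) :
    Y.N S (a ::ₘ T) = Y.X S T + (T.map fun t => Y.X S (a ::ₘ T.erase t)).sum := by
  rw [N, Multiset.map_cons, Multiset.sum_cons, Multiset.erase_cons_head]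
  congr 2
  refine Multiset.map_congr rfl fun t ht => ?_
  rw [Multiset.erase_cons_tail_of_mem ht]

omit [Fintype A] in
lemma N_dup {S : Finset (Fin n)} {a : A} {T : Multiset A} (hT : ND (Y.P S) T)
    (ha : Hit (Y.P S) T a) : Y.N S (a ::ₘ T) = 2 • Y.X S T := by
  obtain ⟨t, ht, hat⟩ := ha
  rw [N_cons, two_smul]
  congr 1
  obtain ⟨T', rfl⟩ := Multiset.exists_cons_of_mem ht
  rw [Multiset.map_cons, Multiset.sum_cons, Multiset.erase_cons_head, Y.X_inv S a t T' hat]
  rw [Multiset.sum_eq_zero, add_zero]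
  intro z hz
  obtain ⟨s, hs, rfl⟩ := Multiset.mem_map.1 hz
  rw [X, if_neg]
  rw [nd_cons, Multiset.erase_cons_tail_of_mem hs, hit_cons]
  exact fun h => h.1 (Or.inl hat)

noncomputable def nu : (Y.Enh → ℤ) →ₗ[ℤ] (Y.Enh → ℤ) :=
  Fintype.linearCombination ℤ fun x => Y.N x.1.1 (Y.reps x)

lemma nu_X (S : Finset (Fin n)) (T : Multiset A) :
    Y.nu (Y.X S T) = if ND (Y.P S) T then Y.N S T else 0 := by
  unfold X
  split_ifs with h
  · rw [nu, Fintype.linearCombination_apply_single, one_smul]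
    exact Y.N_congr (Y.reps_lab h)
  · simp

/-- Incidence of the degree two deformation: `x ⊗ x ↦ x` and `1 ↦ 1 ⊗ 1`. -/
def IncT (i : Fin n) (x y : Y.Enh) : Prop :=
  i ∉ x.1.1 ∧ y.1.1 = insert i x.1.1 ∧ y.1.2 = x.1.2 ∧ x.1.2 (Y.p i) = x.1.2 (Y.q i) ∧
    (x.1.2 (Y.p i) = true ↔ Y.P x.1.1 (Y.p i) (Y.q i))

noncomputable def ET (i : Fin n) : (Y.Enh → ℤ) →ₗ[ℤ] (Y.Enh → ℤ) :=
  Matrix.mulVecLin fun y x =>
    if Y.IncT i x y then (if Y.P x.1.1 (Y.p i) (Y.q i) then -1 else 1) else 0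

lemma ET_single (i : Fin n) (x y : Y.Enh) : Y.ET i (Pi.single x 1) y =
    if Y.IncT i x y then (if Y.P x.1.1 (Y.p i) (Y.q i) then -1 else 1) else 0 := by
  simp [ET, Matrix.mulVec_single]

omit [Fintype A] in
lemma incT_lab (i : Fin n) (S : Finset (Fin n)) (T : Multiset A) (y : Y.Enh) :
    Y.IncT i (Y.lab S T) y ↔ i ∉ S ∧ y.1.1 = insert i S ∧
      (∀ a, y.1.2 a = false ↔ Hit (Y.P S) T a) ∧
      (Hit (Y.P S) T (Y.p i) ↔ Hit (Y.P S) T (Y.q i)) ∧
      (¬ Hit (Y.P S) T (Y.p i) ↔ Y.P S (Y.p i) (Y.q i)) := by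
  have h1 : y.1.2 = (Y.lab S T).1.2 ↔ ∀ a, y.1.2 a = false ↔ Hit (Y.P S) T a := by
    rw [funext_iff]
    refine forall_congr' fun a => ?_
    rw [← Y.lab_false S T a]
    cases y.1.2 a <;> cases (Y.lab S T).1.2 a <;> simp
  have h2 : (Y.lab S T).1.2 (Y.p i) = (Y.lab S T).1.2 (Y.q i) ↔
      (Hit (Y.P S) T (Y.p i) ↔ Hit (Y.P S) T (Y.q i)) := by
    rw [← Y.lab_false S T, ← Y.lab_false S T]
    cases (Y.lab S T).1.2 (Y.p i) <;> cases (Y.lab S T).1.2 (Y.q i) <;> simp
  rw [← h1, ← h2, ← Y.lab_true S T]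
  exact Iff.rfl

lemma E_nu {S : Finset (Fin n)} {i : Fin n} (hi : i ∉ S) {T : Multiset A} (hT : ND (Y.P S) T) :
    Y.E i (Y.nu (Y.X S T)) = Y.nu (Y.E i (Y.X S T)) + 2 • Y.ET i (Y.X S T) := by
  rw [nu_X, if_pos hT, Y.E_X hi, map_ed, N, map_multiset_sum, Multiset.map_map]
  simp only [Function.comp_def, Y.E_X hi, nu_X]
  unfold ed
  by_cases h : Y.P S (Y.p i) (Y.q i)
  · simp only [h, if_true]
    have hT' : ND (Y.P (insert i S)) T := hT.mono fun _ _ => Y.split_le hi h
    rw [Multiset.sum_map_add]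
    have e1 := Y.N_cons (insert i S) (Y.p i) T
    have e2 := Y.N_cons (insert i S) (Y.q i) T
    have hET : Y.ET i (Y.X S T) =
        if Hit (Y.P S) T (Y.p i) then 0 else - Y.X (insert i S) T := by
      funext y
      rw [X, if_pos hT, ET_single, incT_lab, lab_fst]
      by_cases hp : Hit (Y.P S) T (Y.p i)
      · simp [hp, h]
      · have hq : ¬ Hit (Y.P S) T (Y.q i) := fun h1 => hp (h1.congr ((Y.P S).symm h))
        have hh : ∀ a, Hit (Y.P (insert i S)) T a ↔ Hit (Y.P S) T a := by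
          intro a
          constructor
          · rintro ⟨t, ht, h3⟩; exact ⟨t, ht, Y.split_le hi h h3⟩
          · rintro ⟨t, ht, h3⟩
            rcases (Y.split_iff hi h _ _).1 h3 with h4 | h4 | h4
            · exact ⟨t, ht, h4⟩
            · exact absurd ⟨t, ht, Y.split_le hi h h4.2⟩ hq
            · exact absurd ⟨t, ht, Y.split_le hi h h4.2⟩ hp
        simp only [hi, hp, hq, h, not_false_eq_true, true_and, and_true, if_true, if_false, X, hT',
          Pi.neg_apply, Pi.single_apply, eq_lab, hh]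
        split_ifs <;> simp
    rw [hET]
    by_cases hp : Hit (Y.P (insert i S)) T (Y.p i)
    · have hq : ¬ Hit (Y.P (insert i S)) T (Y.q i) := by
        rintro ⟨s, hs, h3⟩
        obtain ⟨t, ht, h2⟩ := hp
        have : t = s := ((nd_iff _ _).1 hT).2 t ht s hs
          ((Y.split_iff hi h _ _).2 (Or.inr (Or.inl ⟨(Y.P _).symm h2, h3⟩)))
        subst this
        exact Y.split_not hi h ((Y.P _).trans h2 ((Y.P _).symm h3))
      have hp' : Hit (Y.P S) T (Y.p i) := by
        obtain ⟨t, ht, h2⟩ := hp; exact ⟨t, ht, Y.split_le hi h h2⟩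
      rw [Y.N_dup hT' hp] at e1
      simp only [nd_cons, hp, hq, hp', hT', not_true_eq_false, not_false_eq_true, false_and,
        true_and, if_true, if_false, e2]
      rw [two_smul, add_right_inj] at e1
      rw [← e1]
      simp
    · by_cases hq : Hit (Y.P (insert i S)) T (Y.q i)
      · have hp' : Hit (Y.P S) T (Y.p i) := by
          obtain ⟨t, ht, h2⟩ := hq; exact ⟨t, ht, (Y.P S).trans h (Y.split_le hi h h2)⟩
        rw [Y.N_dup hT' hq] at e2
        simp only [nd_cons, hp, hq, hp', hT', not_true_eq_false, not_false_eq_true, false_and,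
          true_and, if_true, if_false, e1]
        rw [two_smul, add_right_inj] at e2
        rw [← e2]
        simp [add_comm]
      · have hp' : ¬ Hit (Y.P S) T (Y.p i) := by
          rintro ⟨t, ht, h3⟩
          rcases (Y.split_iff hi h _ _).1 h3 with h4 | h4 | h4
          · exact hp ⟨t, ht, h4⟩
          · exact hq ⟨t, ht, h4.2⟩
          · exact hp ⟨t, ht, h4.2⟩
        simp only [nd_cons, hp, hq, hp', hT', not_false_eq_true, true_and, if_true, if_false, e1,
          e2, two_smul]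
        abel
  · simp only [h, if_false]
    change Y.N (insert i S) T = _
    by_cases hb : Hit (Y.P S) T (Y.p i) ∧ Hit (Y.P S) T (Y.q i)
    · obtain ⟨⟨t, ht, h2⟩, ⟨s, hs, h3⟩⟩ := hb
      have hst : t ≠ s := by
        rintro rfl
        exact h ((Y.P S).trans h2 ((Y.P S).symm h3))
      have hts : Y.P (insert i S) s t :=
        (Y.merge_iff hi h _ _).2 (Or.inr (Or.inr ⟨(Y.P S).symm h3, h2⟩))
      obtain ⟨T', rfl⟩ := Multiset.exists_cons_of_mem hs
      have ht' : t ∈ T' := (Multiset.mem_cons.1 ht).resolve_left hst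
      have hT0 := (nd_cons _ _ _).1 hT
      have hT' : ND (Y.P (insert i S)) T' := by
        have h0 := (nd_iff _ _).1 hT0.2
        rw [nd_iff]
        refine ⟨h0.1, fun x hx z hz hxz => ?_⟩
        rcases (Y.merge_iff hi h _ _).1 hxz with h4 | h4 | h4
        · exact h0.2 x hx z hz h4
        · exact absurd ⟨z, hz, (Y.P S).trans ((Y.P S).symm h3) h4.2⟩ hT0.1
        · exact absurd ⟨x, hx, (Y.P S).trans ((Y.P S).symm h3) ((Y.P S).symm h4.1)⟩ hT0.1
      rw [Y.N_dup hT' ⟨t, ht', hts⟩, if_neg fun h5 => ((nd_cons _ _ _).1 h5).1 ⟨t, ht', hts⟩,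
        zero_add]
      congr 1
      funext y
      have hh : ∀ a, Hit (Y.P (insert i S)) T' a ↔ Hit (Y.P S) (s ::ₘ T') a := by
        intro a
        constructor
        · rintro ⟨r, hr, h5⟩
          rcases (Y.merge_iff hi h _ _).1 h5 with h4 | h4 | h4
          · exact ⟨r, Multiset.mem_cons_of_mem hr, h4⟩
          · exact ⟨t, ht, (Y.P S).trans h4.1 h2⟩
          · exact ⟨s, hs, (Y.P S).trans h4.1 h3⟩
        · rintro ⟨r, hr, h5⟩
          rcases Multiset.mem_cons.1 hr with rfl | hr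
          · exact ⟨t, ht', (Y.P _).trans (Y.merge_le hi h h5) hts⟩
          · exact ⟨r, hr, Y.merge_le hi h h5⟩
      have hp : Hit (Y.P S) (s ::ₘ T') (Y.p i) := ⟨t, ht, h2⟩
      have hq : Hit (Y.P S) (s ::ₘ T') (Y.q i) := ⟨s, hs, h3⟩
      rw [X, X, if_pos hT, if_pos hT', ET_single, incT_lab, lab_fst]
      simp only [hi, hp, hq, h, not_false_eq_true, true_and, and_true, if_false,
        Pi.single_apply, eq_lab, hh, not_true_eq_false]
    · have hT' : ND (Y.P (insert i S)) T := by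
        have h0 := (nd_iff _ _).1 hT
        rw [nd_iff]
        refine ⟨h0.1, fun x hx z hz hxz => ?_⟩
        rcases (Y.merge_iff hi h _ _).1 hxz with h4 | h4 | h4
        · exact h0.2 x hx z hz h4
        · exact absurd ⟨⟨x, hx, (Y.P S).symm h4.1⟩, ⟨z, hz, h4.2⟩⟩ hb
        · exact absurd ⟨⟨z, hz, h4.2⟩, ⟨x, hx, (Y.P S).symm h4.1⟩⟩ hb
      rw [if_pos hT']
      have : Y.ET i (Y.X S T) = 0 := by
        funext y
        rw [X, if_pos hT, ET_single, incT_lab, if_neg, Pi.zero_apply]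
        rintro ⟨_, _, _, h4, h5⟩
        tauto
      rw [this, smul_zero, add_zero]

noncomputable def coefT (x y : Y.Enh) : ℤ :=
  ∑ i, sgn x.1.1 i * if Y.IncT i x y then (if Y.P x.1.1 (Y.p i) (Y.q i) then -1 else 1) else 0

noncomputable def dT : (Y.Enh → ℤ) →ₗ[ℤ] (Y.Enh → ℤ) := Matrix.mulVecLin fun y x => Y.coefT x y

lemma d_nu (v : Y.Enh → ℤ) : Y.d (Y.nu v) = Y.nu (Y.d v) + 2 • Y.dT v := by
  have : Y.d ∘ₗ Y.nu = Y.nu ∘ₗ Y.d + 2 • Y.dT := by
    refine Y.ext_X fun S T hT => ?_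
    have h1 : Y.d (Y.nu (Y.X S T)) = ∑ i, sgn S i • Y.E i (Y.nu (Y.X S T)) := by
      rw [nu_X, if_pos hT, N]
      have : ∀ (L : Multiset A) (f : A → Multiset A), Y.d (L.map fun t => Y.X S (f t)).sum =
          ∑ i, sgn S i • Y.E i (L.map fun t => Y.X S (f t)).sum := by
        intro L f
        induction L using Multiset.induction_on with
        | empty => simp
        | cons a L ih => simp [ih, d_X, Finset.sum_add_distrib]
      exact this T _
    have h2 : Y.dT (Y.X S T) = ∑ i, sgn S i • Y.ET i (Y.X S T) := by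
      funext y
      rw [X, if_pos hT, Finset.sum_apply]
      simp only [Pi.smul_apply, ET_single, smul_eq_mul]
      simp [dT, Matrix.mulVec_single, coefT]
    rw [LinearMap.comp_apply, LinearMap.add_apply, LinearMap.comp_apply, LinearMap.smul_apply, h1,
      h2, d_X, map_sum, Finset.smul_sum, ← Finset.sum_add_distrib]
    refine Finset.sum_congr rfl fun i _ => ?_
    by_cases hi : i ∈ S
    · have h3 : Y.ET i (Y.X S T) = 0 := by
        funext y
        rw [X, if_pos hT, ET_single, if_neg fun h => h.1 hi, Pi.zero_apply]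
      have h4 : Y.E i (Y.nu (Y.X S T)) = 0 := by
        rw [nu_X, if_pos hT, N, map_multiset_sum, Multiset.map_map]
        simp [Y.E_X_mem hi]
      simp [h3, h4, Y.E_X_mem hi]
    · rw [Y.E_nu hi hT, map_smul, smul_add, smul_comm]
  exact LinearMap.congr_fun this v

def Cocyc (φ : Y.Enh → ZMod 2) : Prop := ∀ x, ∑ i, ∑ y, (if Y.Inc i x y then φ y else 0) = 0

def Cyc (z : Y.Enh → ZMod 2) : Prop := ∀ y, ∑ i, ∑ x, (if Y.Inc i x y then z x else 0) = 0

noncomputable def pair (z φ : Y.Enh → ZMod 2) : ZMod 2 :=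
  ∑ x, ∑ i, ∑ y, if Y.IncT i x y then z x * φ y else 0

/-- The deformation acts non-trivially on homology mod 2. -/
def Good : Prop := ∃ z φ, Y.Cyc z ∧ Y.Cocyc φ ∧ Y.pair z φ = 1

omit [Fintype A] in
lemma coef_cast (x y : Y.Enh) : (Y.coef x y : ZMod 2) = ∑ i, if Y.Inc i x y then 1 else 0 := by
  rw [coef, Int.cast_sum]
  refine Finset.sum_congr rfl fun i _ => ?_
  have : (-1 : ZMod 2) = 1 := by decide
  split_ifs <;> simp [this]

omit [Fintype A] in
lemma coefT_cast (x y : Y.Enh) : (Y.coefT x y : ZMod 2) = ∑ i, if Y.IncT i x y then 1 else 0 := by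
  rw [coefT, Int.cast_sum]
  refine Finset.sum_congr rfl fun i _ => ?_
  have : (-1 : ZMod 2) = 1 := by decide
  split_ifs <;> simp [this, sgn]

lemma Good.bock (h : Y.Good) : ∃ (x y : Y.Enh → ℤ) (ψ : (Y.Enh → ℤ) →ₗ[ℤ] ZMod 2),
    Y.d x = 2 • y ∧ (∀ v, ψ (Y.d v) = 0) ∧ ψ y = 1 := by
  obtain ⟨z, φ, hz, hφ, hp⟩ := h
  let Φ : (Y.Enh → ℤ) →ₗ[ℤ] ZMod 2 := Fintype.linearCombination ℤ φ
  have hΦ : ∀ v, Φ v = ∑ y, (v y : ZMod 2) * φ y := by
    intro v
    simp [Φ, Fintype.linearCombination_apply]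
  have hΦd : ∀ v, Φ (Y.d v) = 0 := by
    have : Φ ∘ₗ Y.d = 0 := by
      refine (Pi.basisFun ℤ Y.Enh).ext fun x => ?_
      rw [Pi.basisFun_apply, LinearMap.comp_apply, hΦ, LinearMap.zero_apply, ← hφ x,
        Finset.sum_comm]
      refine Finset.sum_congr rfl fun y _ => ?_
      rw [d_single, coef_cast, Finset.sum_mul]
      simp
    exact fun v => LinearMap.congr_fun this v
  let z' : Y.Enh → ℤ := fun x => ((z x).val : ℤ)
  have hz' : ∀ x, (z' x : ZMod 2) = z x := fun x => by simp [z']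
  have hw : ∀ y, (2 : ℤ) ∣ Y.d z' y := by
    intro y
    have : ((Y.d z' y : ℤ) : ZMod 2) = 0 := by
      rw [← hz y, Finset.sum_comm]
      simp only [d, Matrix.mulVecLin_apply, Matrix.mulVec, dotProduct, Int.cast_sum, Int.cast_mul,
        coef_cast, hz', Finset.sum_mul]
      simp
    exact (ZMod.intCast_zmod_eq_zero_iff_dvd _ 2).1 this
  choose w hw using hw
  have hw' : Y.d z' = 2 • w := by
    funext y
    rw [hw y]
    simp
  have hT : Φ (Y.dT z') = 1 := by
    rw [hΦ, ← hp, pair]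
    simp only [dT, Matrix.mulVecLin_apply, Matrix.mulVec, dotProduct, Int.cast_sum, Int.cast_mul,
      coefT_cast, hz', Finset.sum_mul]
    rw [Finset.sum_comm]
    refine Finset.sum_congr rfl fun x _ => ?_
    rw [Finset.sum_comm]
    simp
  have h2 : ∀ a : ZMod 2, 2 • a = 0 := by decide
  by_cases h1 : Φ (Y.nu w) = 1
  · refine ⟨z', w, Φ ∘ₗ Y.nu, hw', fun v => ?_, h1⟩
    have := hΦd (Y.nu v)
    rwa [d_nu, map_add, map_nsmul, h2, add_zero] at this
  · refine ⟨Y.nu z', Y.nu w + Y.dT z', Φ, ?_, hΦd, ?_⟩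
    · rw [d_nu, hw', map_nsmul, smul_add]
    · rw [map_add, hT]
      revert h1
      generalize Φ (Y.nu w) = a
      revert a
      decide

/-! Degrees. -/

omit [Fintype A] in
lemma _root_.Pool.Agent.MP_f5aac0_gt.nd_join {R R' : Setoid A} {p q : A}
    (h : ∀ a b, R' a b ↔ Jn1 R p q a b) {T : Multiset A} (hT : ND R T)
    (hb : ¬ (Hit R T p ∧ Hit R T q)) : ND R' T := by
  have h0 := (nd_iff _ _).1 hT
  rw [nd_iff]
  refine ⟨h0.1, fun x hx z hz hxz => ?_⟩
  rcases (h _ _).1 hxz with h4 | h4 | h4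
  · exact h0.2 x hx z hz h4
  · exact absurd ⟨⟨x, hx, R.symm h4.1⟩, ⟨z, hz, h4.2⟩⟩ hb
  · exact absurd ⟨⟨z, hz, h4.2⟩, ⟨x, hx, R.symm h4.1⟩⟩ hb

lemma _root_.Pool.Agent.MP_f5aac0_gt.card_full {R : Setoid A} {T : Multiset A} (hT : ND R T)
    (hf : ∀ a, Hit R T a) : T.card = Nat.card (Quotient R) := by
  have : T.map (Quotient.mk R) = Finset.univ.val := by
    refine (Multiset.Nodup.ext hT Finset.univ.nodup).2 fun c => ?_
    obtain ⟨a, rfl⟩ := Quotient.exists_rep c
    simp only [← hit_iff, hf a, Finset.mem_val, Finset.mem_univ]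
  rw [← Multiset.card_map (Quotient.mk R), this, Nat.card_eq_fintype_card]
  rfl

lemma _root_.Pool.Agent.MP_f5aac0_gt.exists_full (R : Setoid A) :
    ∃ T, ND R T ∧ ∀ a, Hit R T a := by
  refine ⟨Finset.univ.val.map (Quotient.out (s := R)), ?_, fun a => ?_⟩
  · simp [ND, Multiset.map_map, Finset.univ.nodup]
  · simp [hit_iff, Multiset.map_map]

lemma _root_.Pool.Agent.MP_f5aac0_gt.card_join {R R' : Setoid A} {p q : A}
    (h : ∀ a b, R' a b ↔ Jn1 R p q a b) (hpq : ¬ R p q) :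
    Nat.card (Quotient R) = Nat.card (Quotient R') + 1 := by
  obtain ⟨T, hT, hf⟩ := exists_full R
  obtain ⟨s, hs, hqs⟩ := hf q
  obtain ⟨T', rfl⟩ := Multiset.exists_cons_of_mem hs
  have h0 := (nd_cons _ _ _).1 hT
  rw [← card_full hT hf, Multiset.card_cons, card_full (R := R') (nd_join h h0.2 fun h1 =>
    h0.1 (h1.2.congr hqs))]
  intro a
  have hp : Hit R T' p := by
    rcases (hit_cons _ _ _ _).1 (hf p) with h1 | h1
    · exact absurd (R.trans h1 (R.symm hqs)) hpq
    · exact h1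
  rcases (hit_cons _ _ _ _).1 (hf a) with h1 | ⟨t, ht, h1⟩
  · obtain ⟨t, ht, h2⟩ := hp
    exact ⟨t, ht, (h _ _).2 (Or.inr (Or.inr ⟨R.trans h1 (R.symm hqs), h2⟩))⟩
  · exact ⟨t, ht, (h _ _).2 (Or.inl h1)⟩

noncomputable def circles (x : Y.Enh) (b : Bool) : ℕ :=
  Nat.card {c : Quotient (Y.P x.1.1) // ∃ a, Quotient.mk _ a = c ∧ x.1.2 a = b}

lemma circles_eq (x : Y.Enh) (b : Bool) : Y.circles x b =
    (Finset.univ.filter fun c : Quotient (Y.P x.1.1) => x.1.2 c.out = b).card := by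
  rw [circles, Nat.card_eq_fintype_card, Fintype.card_subtype]
  congr 1
  refine Finset.filter_congr fun c _ => ⟨?_, fun h => ⟨c.out, c.out_eq, h⟩⟩
  rintro ⟨a, rfl, h⟩
  rw [← h]
  exact x.2 _ a (Quotient.mk_out (s := Y.P x.1.1) a)

lemma tau_lab {S : Finset (Fin n)} {T : Multiset A} (hT : ND (Y.P S) T) :
    (Y.circles (Y.lab S T) true : ℤ) - Y.circles (Y.lab S T) false =
      Nat.card (Quotient (Y.P S)) - 2 * T.card := by
  have h1 : Y.circles (Y.lab S T) false = T.card := by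
    rw [← Multiset.card_map (Quotient.mk (Y.P S)), ← Y.reps_lab hT, circles_eq]
    exact (congrArg Multiset.card (Y.reps_map (Y.lab S T))).symm
  have h2 : Y.circles (Y.lab S T) true + Y.circles (Y.lab S T) false =
      Nat.card (Quotient (Y.P S)) := by
    rw [circles_eq, circles_eq, Nat.card_eq_fintype_card, ← Finset.card_univ,
      ← Finset.card_filter_add_card_filter_not (s := Finset.univ)
        fun c : Quotient (Y.P S) => (Y.lab S T).1.2 c.out = true]
    simp only [Bool.not_eq_true]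
    rfl
  omega

lemma Inc.deg {i : Fin n} {x y : Y.Enh} (h : Y.Inc i x y) :
    y.1.1.card = x.1.1.card + 1 ∧ (Y.circles y true : ℤ) - Y.circles y false + 1 =
      (Y.circles x true : ℤ) - Y.circles x false := by
  have hi := h.1
  refine ⟨by rw [h.2.1, Finset.card_insert_of_notMem hi], ?_⟩
  have hT := Y.nd_reps x
  rw [← Y.lab_reps x] at h
  conv_rhs => rw [← Y.lab_reps x, Y.tau_lab hT]
  by_cases hp : Y.P x.1.1 (Y.p i) (Y.q i)
  · have hc := card_join (Y.split_iff hi hp) (Y.split_not hi hp)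
    rcases (Y.inc_split hi hp hT y).1 h with ⟨h1, rfl⟩ | ⟨h1, rfl⟩ <;>
    · rw [Y.tau_lab h1, Multiset.card_cons, hc]
      push_cast
      ring
  · have hc := card_join (Y.merge_iff hi hp) hp
    obtain ⟨h1, rfl⟩ := (Y.inc_merge hi hp hT y).1 h
    rw [Y.tau_lab h1, hc]
    push_cast
    ring

end Sys

end Pool.Agent.MP_f5aac0_gt
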