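import Pool.Agent.MP_f5aac0_gt.Alg

/-!
Criteria for cycles and cocycles mod 2, duality, joins of partitions, and the canonical labelling
of a homogeneously adequate state.
-/

namespace Pool.Agent.MP_f5aac0_gt

open Classical symmDiff

namespace Sys

variable {n : ℕ} {A : Type} (Y : Sys n A)

lemma cocyc_of [Fintype A] (F : Finset (Fin n) → Multiset A → ZMod 2)
    (h1 : ∀ S T T', T.map (Quotient.mk (Y.P S)) = T'.map (Quotient.mk (Y.P S)) → F S T = F S T')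
    (h2 : ∀ S T, ¬ ND (Y.P S) T → F S T = 0)
    (h3 : ∀ S T, ∑ i, (if i ∈ S then 0 else Y.ed S i (F (insert i S)) T) = 0) :
    Y.Cocyc fun x => F x.1.1 (Y.reps x) := by
  intro x
  let Φ : (Y.Enh → ℤ) →ₗ[ℤ] ZMod 2 := Fintype.linearCombination ℤ fun x => F x.1.1 (Y.reps x)
  have hX : ∀ S T, Φ (Y.X S T) = F S T := by
    intro S T
    unfold X
    split_ifs with h
    · simp only [Φ, Fintype.linearCombination_apply_single, one_smul]
      exact h1 _ _ _ (Y.reps_lab h)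
    · rw [map_zero, h2 S T h]
  refine (Finset.sum_congr rfl fun i _ => ?_).trans (h3 x.1.1 (Y.reps x))
  have : Φ (Y.E i (Pi.single x 1)) = ∑ y, if Y.Inc i x y then F y.1.1 (Y.reps y) else 0 := by
    simp [Φ, Fintype.linearCombination_apply, E_single]
  refine this.symm.trans ?_
  rw [single_eq_X]
  split_ifs with hi
  · rw [Y.E_X_mem hi, map_zero]
  · rw [Y.E_X hi, map_ed]
    simp only [hX]

/-- The mirror system. -/
def dual : Sys n A where
  P S := Y.P Sᶜ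
  p := Y.p
  q := Y.q
  ax S i hi := by
    have h1 : insert i (insert i S)ᶜ = Sᶜ := by
      ext j
      by_cases h : j = i <;> simp [h, hi]
    have := Y.ax (insert i S)ᶜ i (by simp)
    rw [h1] at this
    exact this.symm

def fl (x : Y.dual.Enh) : Y.Enh :=
  ⟨(x.1.1ᶜ, fun a => !x.1.2 a), fun a b h => by simp only [x.2 a b h]⟩

lemma fl_bij : Function.Bijective Y.fl := by
  constructor
  · intro x y h
    have h1 := congrArg (fun z => z.1.1) h
    have h2 := congrArg (fun z => z.1.2) h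
    apply Subtype.ext
    apply Prod.ext (compl_injective h1)
    funext a
    exact Bool.not_inj (congrFun h2 a)
  · intro x
    refine ⟨⟨(x.1.1ᶜ, fun a => !x.1.2 a), fun a b h => ?_⟩, ?_⟩
    · have h' : Y.P x.1.1ᶜᶜ a b := h
      rw [compl_compl] at h'
      simp only [x.2 a b h']
    · apply Subtype.ext
      simp [fl]

lemma flip_st {i : Fin n} {S S' : Finset (Fin n)} :
    (i ∉ S ∧ S' = insert i S) ↔ (i ∉ S'ᶜ ∧ Sᶜ = insert i S'ᶜ) := by
  constructor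
  · rintro ⟨h, rfl⟩
    refine ⟨by simp, ?_⟩
    ext j
    by_cases hj : j = i <;> simp [hj, h]
  · rintro ⟨h1, h2⟩
    have h3 : ∀ j, j ∉ S ↔ j = i ∨ j ∉ S' := fun j => by
      simpa using Finset.ext_iff.1 h2 j
    refine ⟨(h3 i).2 (Or.inl rfl), ?_⟩
    ext j
    have := h3 j
    by_cases hj : j = i
    · simpa [hj] using h1
    · simp only [hj, false_or, not_iff_not] at this
      simp [hj, this]

lemma off_iff {S : Finset (Fin n)} {i : Fin n} (hi : i ∉ S) (a : A) :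
    (¬ Y.P (insert i S) a (Y.p i) ∧ ¬ Y.P (insert i S) a (Y.q i)) ↔
      (¬ Y.P S a (Y.p i) ∧ ¬ Y.P S a (Y.q i)) := by
  have r := (Y.P S).refl
  have r' := (Y.P (insert i S)).refl
  by_cases h : Y.P S (Y.p i) (Y.q i)
  · simp only [Y.split_iff hi h, Jn1]
    have := r' (Y.p i)
    have := r' (Y.q i)
    tauto
  · simp only [Y.merge_iff hi h, Jn1]
    have := r (Y.p i)
    have := r (Y.q i)
    tauto

lemma loop_iff {S : Finset (Fin n)} {i : Fin n} (hi : i ∉ S) :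
    Y.P (insert i S) (Y.p i) (Y.q i) ↔ ¬ Y.P S (Y.p i) (Y.q i) :=
  ⟨fun h h' => Y.split_not hi h' h, Y.merge_pq hi⟩

lemma inc_dual (i : Fin n) (x y : Y.dual.Enh) : Y.dual.Inc i x y ↔ Y.Inc i (Y.fl y) (Y.fl x) := by
  unfold Inc
  rw [← and_assoc, ← and_assoc (a := i ∉ (Y.fl y).1.1), flip_st]
  refine and_congr_right fun h => ?_
  obtain ⟨hi, h⟩ := h
  have hP : ∀ a b, Y.dual.P x.1.1 a b ↔ Y.P (insert i y.1.1ᶜ) a b := fun a b => by
    rw [← h]; exact Iff.rfl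
  have hx : Y.P (insert i y.1.1ᶜ) (Y.p i) (Y.q i) → x.1.2 (Y.p i) = x.1.2 (Y.q i) :=
    fun h1 => x.2 _ _ ((hP _ _).2 h1)
  have hy : Y.P y.1.1ᶜ (Y.p i) (Y.q i) → y.1.2 (Y.p i) = y.1.2 (Y.q i) := fun h1 => y.2 _ _ h1
  have ho := Y.off_iff hi
  have hl := Y.loop_iff hi
  simp only [hP]
  change _ ↔ (∀ a, ¬ Y.P y.1.1ᶜ a (Y.p i) → ¬ Y.P y.1.1ᶜ a (Y.q i) → (!x.1.2 a) = !y.1.2 a) ∧
    (Y.P y.1.1ᶜ (Y.p i) (Y.q i) → (!y.1.2 (Y.p i), !x.1.2 (Y.p i), !x.1.2 (Y.q i)) ∈ _) ∧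
    (¬ Y.P y.1.1ᶜ (Y.p i) (Y.q i) → (!y.1.2 (Y.p i), !y.1.2 (Y.q i), !x.1.2 (Y.p i)) ∈ _)
  refine and_congr (forall_congr' fun a => ?_) ?_
  · rw [← and_imp, ← and_imp]
    exact imp_congr (ho a) ⟨fun h => by rw [h], fun h => (Bool.not_inj h).symm⟩
  · change (Y.P (insert i y.1.1ᶜ) (Y.p i) (Y.q i) → (x.1.2 (Y.p i), y.1.2 (Y.p i), y.1.2 (Y.q i)) ∈ _) ∧
      (¬ Y.P (insert i y.1.1ᶜ) (Y.p i) (Y.q i) → (x.1.2 (Y.p i), x.1.2 (Y.q i), y.1.2 (Y.p i)) ∈ _) ↔ _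
    rw [hl]
    by_cases h1 : Y.P y.1.1ᶜ (Y.p i) (Y.q i)
    · simp only [h1, not_true_eq_false, not_false_eq_true, false_imp_iff, true_imp_iff, true_and,
        and_true]
      cases x.1.2 (Y.p i) <;> cases x.1.2 (Y.q i) <;> cases y.1.2 (Y.p i) <;> simp
    · simp only [h1, not_true_eq_false, not_false_eq_true, false_imp_iff, true_imp_iff, true_and,
        and_true]
      cases x.1.2 (Y.p i) <;> cases y.1.2 (Y.q i) <;> cases y.1.2 (Y.p i) <;> simp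

lemma incT_dual (i : Fin n) (x y : Y.dual.Enh) :
    Y.dual.IncT i x y ↔ Y.IncT i (Y.fl y) (Y.fl x) := by
  unfold IncT
  rw [← and_assoc, ← and_assoc (a := i ∉ (Y.fl y).1.1), flip_st]
  refine and_congr_right fun h => ?_
  obtain ⟨hi, h⟩ := h
  have hP : Y.dual.P x.1.1 (Y.p i) (Y.q i) ↔ ¬ Y.P y.1.1ᶜ (Y.p i) (Y.q i) := by
    rw [← Y.loop_iff hi, ← h]; exact Iff.rfl
  change y.1.2 = x.1.2 ∧ x.1.2 (Y.p i) = x.1.2 (Y.q i) ∧
      (x.1.2 (Y.p i) = true ↔ Y.dual.P x.1.1 (Y.p i) (Y.q i)) ↔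
    (fun a => !x.1.2 a) = (fun a => !y.1.2 a) ∧ (!y.1.2 (Y.p i)) = (!y.1.2 (Y.q i)) ∧
      ((!y.1.2 (Y.p i)) = true ↔ Y.P y.1.1ᶜ (Y.p i) (Y.q i))
  rw [hP]
  have h1 : (fun a => !x.1.2 a) = (fun a => !y.1.2 a) ↔ y.1.2 = x.1.2 :=
    ⟨fun h => funext fun a => (Bool.not_inj (congrFun h a)).symm, fun h => by rw [h]⟩
  rw [h1]
  refine and_congr_right fun h2 => ?_
  rw [h2]
  cases x.1.2 (Y.p i) <;> cases x.1.2 (Y.q i) <;> simp

lemma cyc_dual [Fintype A] (z : Y.Enh → ZMod 2) : Y.Cyc z ↔ Y.dual.Cocyc (z ∘ Y.fl) := by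
  unfold Cyc Cocyc
  rw [Y.fl_bij.2.forall]
  refine forall_congr' fun y => ?_
  simp only [inc_dual, ← Y.fl_bij.sum_comp, Function.comp]

lemma cocyc_dual [Fintype A] (φ : Y.Enh → ZMod 2) : Y.Cocyc φ ↔ Y.dual.Cyc (φ ∘ Y.fl) := by
  unfold Cyc Cocyc
  rw [Y.fl_bij.2.forall]
  refine forall_congr' fun y => ?_
  simp only [inc_dual, ← Y.fl_bij.sum_comp, Function.comp]

lemma good_of_dual [Fintype A] (h : Y.dual.Good) : Y.Good := by
  obtain ⟨z, φ, hz, hφ, hp⟩ := h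
  let e := Equiv.ofBijective _ Y.fl_bij
  have he : ∀ f : Y.dual.Enh → ZMod 2, (f ∘ e.symm) ∘ Y.fl = f := fun f =>
    funext fun x => congrArg f (e.symm_apply_apply x)
  refine ⟨φ ∘ e.symm, z ∘ e.symm, (Y.cyc_dual _).2 (by rwa [he]), (Y.cocyc_dual _).2 (by rwa [he]),
    ?_⟩
  refine Eq.trans ?_ hp
  unfold pair
  simp only [incT_dual, ← Y.fl_bij.sum_comp]
  have h1 : ∀ x, (φ ∘ e.symm) (Y.fl x) = φ x := fun x => congrFun (he φ) x
  have h2 : ∀ x, (z ∘ e.symm) (Y.fl x) = z x := fun x => congrFun (he z) x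
  simp only [h1, h2]
  rw [Finset.sum_comm]
  conv_rhs => rw [Finset.sum_comm]
  refine Finset.sum_congr rfl fun i _ => ?_
  rw [Finset.sum_comm]
  simp only [mul_comm]

def neg (x : Y.Enh) : Y.Enh :=
  ⟨(x.1.1, fun a => !x.1.2 a), fun a b h => by simp only [x.2 a b h]⟩

lemma cyc_of [Fintype A] (G : Finset (Fin n) → Multiset A → ZMod 2)
    (h1 : ∀ S T T', T.map (Quotient.mk (Y.P S)) = T'.map (Quotient.mk (Y.P S)) → G S T = G S T')
    (h2 : ∀ S T, ¬ ND (Y.P S) T → G S T = 0)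
    (h3 : ∀ S T, ∑ i, (if i ∈ S then Y.ed S i (G (S.erase i)) T else 0) = 0) :
    Y.Cyc fun x => G x.1.1 (Y.reps (Y.neg x)) := by
  rw [cyc_dual]
  have := Y.dual.cocyc_of (fun S T => G Sᶜ T) (fun S T T' h => h1 _ _ _ h) (fun S T h => h2 _ _ h)
    (fun S T => by
      refine (Finset.sum_congr rfl fun i _ => ?_).trans (h3 Sᶜ T)
      by_cases hi : i ∈ S
      · simp [hi]
      · simp only [hi, if_false, Finset.mem_compl, not_false_eq_true, if_true, Finset.compl_insert]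
        rfl)
  convert this using 2 with x
  refine h1 _ _ _ ((Multiset.Nodup.ext (Y.nd_reps (Y.neg (Y.fl x))) (Y.dual.nd_reps x)).2 fun c => ?_)
  obtain ⟨a, rfl⟩ := Quotient.exists_rep c
  refine ((hit_iff _ _ _).symm.trans ((Y.hit_reps (Y.neg (Y.fl x)) a).trans ?_)).trans
    ((Y.dual.hit_reps x a).symm.trans (hit_iff _ _ _))
  simp [neg, fl]

/-! Flipping one crossing. -/

lemma flip_notMem {S : Finset (Fin n)} {i : Fin n} (hi : i ∉ S) : S ∆ {i} = insert i S := by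
  ext j
  by_cases h : j = i <;> simp [Finset.mem_symmDiff, h, hi]

lemma flip_mem {S : Finset (Fin n)} {i : Fin n} (hi : i ∈ S) : S ∆ {i} = S.erase i := by
  ext j
  by_cases h : j = i <;> simp [Finset.mem_symmDiff, h, hi]

lemma flip_loop (S : Finset (Fin n)) (i : Fin n) :
    Y.P (S ∆ {i}) (Y.p i) (Y.q i) ↔ ¬ Y.P S (Y.p i) (Y.q i) := by
  by_cases hi : i ∈ S
  · have := Y.loop_iff (Finset.notMem_erase i S)
    rw [Finset.insert_erase hi] at this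
    rw [flip_mem hi, this, not_not]
  · rw [flip_notMem hi, Y.loop_iff hi]

lemma flip_merge {S : Finset (Fin n)} {i : Fin n} (h : ¬ Y.P S (Y.p i) (Y.q i)) (a b : A) :
    Y.P (S ∆ {i}) a b ↔ Jn1 (Y.P S) (Y.p i) (Y.q i) a b := by
  by_cases hi : i ∈ S
  · have h1 := (Y.flip_loop S i).2 h
    rw [flip_mem hi] at h1 ⊢
    have := Y.split_iff (Finset.notMem_erase i S) h1 a b
    rwa [Finset.insert_erase hi] at this
  · rw [flip_notMem hi, Y.merge_iff hi h]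

lemma flip_split {S : Finset (Fin n)} {i : Fin n} (h : Y.P S (Y.p i) (Y.q i)) (a b : A) :
    Y.P S a b ↔ Jn1 (Y.P (S ∆ {i})) (Y.p i) (Y.q i) a b := by
  have := Y.flip_merge (S := S ∆ {i}) (i := i) (fun h1 => (Y.flip_loop S i).1 h1 h) a b
  rwa [symmDiff_symmDiff_cancel_right] at this

lemma flip_le (S : Finset (Fin n)) (i : Fin n) {a b : A} (h : Y.P (S ∆ {i}) a b) :
    Jn1 (Y.P S) (Y.p i) (Y.q i) a b := by
  by_cases h1 : Y.P S (Y.p i) (Y.q i)
  · exact Or.inl ((Y.flip_split h1 a b).2 (Or.inl h))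
  · exact (Y.flip_merge h1 a b).1 h

lemma flip_off (S : Finset (Fin n)) (i : Fin n) {a : A} (h1 : ¬ Y.P S a (Y.p i))
    (h2 : ¬ Y.P S a (Y.q i)) (b : A) : Y.P (S ∆ {i}) a b ↔ Y.P S a b := by
  constructor
  · intro h
    rcases Y.flip_le S i h with h | h | h
    · exact h
    · exact absurd h.1 h1
    · exact absurd h.1 h2
  · intro h
    by_cases h3 : Y.P S (Y.p i) (Y.q i)
    · rcases (Y.flip_split h3 a b).1 h with h | h | h
      · exact h
      · exact absurd ((Y.flip_split h3 _ _).2 (Or.inl h.1)) h1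
      · exact absurd ((Y.flip_split h3 _ _).2 (Or.inl h.1)) h2
    · exact (Y.flip_merge h3 a b).2 (Or.inl h)

/-- The join of one pair as a setoid. -/
def _root_.Pool.Agent.MP_f5aac0_gt.jn1 (R : Setoid A) (p q : A) : Setoid A where
  r := Jn1 R p q
  iseqv := by
    refine ⟨fun a => Or.inl (R.refl a), ?_, ?_⟩
    · rintro a b (h | h | h)
      · exact Or.inl (R.symm h)
      · exact Or.inr (Or.inr ⟨R.symm h.2, R.symm h.1⟩)
      · exact Or.inr (Or.inl ⟨R.symm h.2, R.symm h.1⟩)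
    · rintro a b c (h | h | h) (g | g | g)
      · exact Or.inl (R.trans h g)
      · exact Or.inr (Or.inl ⟨R.trans h g.1, g.2⟩)
      · exact Or.inr (Or.inr ⟨R.trans h g.1, g.2⟩)
      · exact Or.inr (Or.inl ⟨h.1, R.trans h.2 g⟩)
      · exact Or.inr (Or.inl ⟨h.1, g.2⟩)
      · exact Or.inl (R.trans h.1 g.2)
      · exact Or.inr (Or.inr ⟨h.1, R.trans h.2 g⟩)
      · exact Or.inl (R.trans h.1 g.2)
      · exact Or.inr (Or.inr ⟨h.1, g.2⟩)

/-- Components of the state graph of `S` restricted to the edges in `F`. -/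
def Jn (S F : Finset (Fin n)) : Setoid A :=
  Relation.EqvGen.setoid fun a b => Y.P S a b ∨ ∃ i ∈ F, a = Y.p i ∧ b = Y.q i

lemma Jn_base {S : Finset (Fin n)} (F : Finset (Fin n)) {a b : A} (h : Y.P S a b) :
    Y.Jn S F a b := Relation.EqvGen.rel _ _ (Or.inl h)

lemma Jn_edge (S : Finset (Fin n)) {F : Finset (Fin n)} {i : Fin n} (h : i ∈ F) :
    Y.Jn S F (Y.p i) (Y.q i) := Relation.EqvGen.rel _ _ (Or.inr ⟨i, h, rfl, rfl⟩)

lemma Jn_ind {S F : Finset (Fin n)} (R : Setoid A) (h1 : ∀ a b, Y.P S a b → R a b)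
    (h2 : ∀ i ∈ F, R (Y.p i) (Y.q i)) {a b : A} (h : Y.Jn S F a b) : R a b := by
  induction h with
  | rel a b h =>
    rcases h with h | ⟨i, hi, rfl, rfl⟩
    · exact h1 _ _ h
    · exact h2 i hi
  | refl a => exact R.refl a
  | symm a b _ ih => exact R.symm ih
  | trans a b c _ _ ih ih' => exact R.trans ih ih'

lemma Jn_fun {S F : Finset (Fin n)} {M : Type} (f : A → M) (h1 : ∀ a b, Y.P S a b → f a = f b)
    (h2 : ∀ i ∈ F, f (Y.p i) = f (Y.q i)) {a b : A} (h : Y.Jn S F a b) : f a = f b :=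
  Y.Jn_ind (Setoid.ker f) h1 h2 h

lemma Jn_mono {S F F' : Finset (Fin n)} (hF : F ⊆ F') {a b : A} (h : Y.Jn S F a b) :
    Y.Jn S F' a b :=
  Y.Jn_ind (Y.Jn S F') (fun _ _ => Y.Jn_base F') (fun _ hi => Y.Jn_edge S (hF hi)) h

lemma Jn_empty {S : Finset (Fin n)} {a b : A} : Y.Jn S ∅ a b ↔ Y.P S a b :=
  ⟨Y.Jn_ind (Y.P S) (fun _ _ h => h) (by simp), Y.Jn_base ∅⟩

lemma Jn1_le {R R' : Setoid A} {p q : A} (h : ∀ a b, R a b → R' a b) (hpq : R' p q) {a b : A}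
    (hab : Jn1 R p q a b) : R' a b := by
  rcases hab with g | g | g
  · exact h _ _ g
  · exact R'.trans (h _ _ g.1) (R'.trans hpq (h _ _ g.2))
  · exact R'.trans (h _ _ g.1) (R'.trans (R'.symm hpq) (h _ _ g.2))

lemma Jn_insert (S F : Finset (Fin n)) (i : Fin n) (a b : A) :
    Y.Jn S (insert i F) a b ↔ Jn1 (Y.Jn S F) (Y.p i) (Y.q i) a b := by
  constructor
  · refine Y.Jn_ind (jn1 (Y.Jn S F) (Y.p i) (Y.q i)) (fun _ _ h => Or.inl (Y.Jn_base F h)) ?_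
    intro j hj
    rcases Finset.mem_insert.1 hj with rfl | hj
    · exact Or.inr (Or.inl ⟨(Y.Jn S F).refl _, (Y.Jn S F).refl _⟩)
    · exact Or.inl (Y.Jn_edge S hj)
  · exact Jn1_le (fun _ _ => Y.Jn_mono (Finset.subset_insert i F))
      (Y.Jn_edge S (Finset.mem_insert_self i F))

lemma flip_insert (S : Finset (Fin n)) {F : Finset (Fin n)} {i : Fin n} (hi : i ∉ F) :
    S ∆ insert i F = (S ∆ F) ∆ {i} := by
  rw [symmDiff_assoc, flip_notMem hi]

lemma flip_empty (S : Finset (Fin n)) : S ∆ ∅ = S := symmDiff_bot S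

lemma P_le_Jn (S F : Finset (Fin n)) {a b : A} (h : Y.P (S ∆ F) a b) : Y.Jn S F a b := by
  induction F using Finset.induction_on generalizing a b with
  | empty => exact Y.Jn_base _ (by rwa [flip_empty] at h)
  | insert i F hi ih =>
    rw [flip_insert S hi] at h
    exact Jn1_le (fun _ _ g => Y.Jn_mono (Finset.subset_insert i F) (ih g))
      (Y.Jn_edge S (Finset.mem_insert_self i F)) (Y.flip_le _ i h)

/-- Away from the flipped crossings the circles do not change. -/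
lemma P_out {S F : Finset (Fin n)} (W : A → Prop) (hW : ∀ a b, Y.P S a b → W a → W b)
    (hF : ∀ i ∈ F, W (Y.p i) ∧ W (Y.q i)) {a : A} (ha : ¬ W a) (b : A) :
    Y.P (S ∆ F) a b ↔ Y.P S a b := by
  induction F using Finset.induction_on generalizing b with
  | empty => rw [flip_empty]
  | insert i F hi ih =>
    have ih' := fun b => ih (fun j hj => hF j (Finset.mem_insert_of_mem hj)) b
    have h0 := hF i (Finset.mem_insert_self i F)
    rw [flip_insert S hi, Y.flip_off, ih']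
    · rw [ih']; exact fun h => ha (hW _ _ ((Y.P S).symm h) h0.1)
    · rw [ih']; exact fun h => ha (hW _ _ ((Y.P S).symm h) h0.2)

def Adequate (S : Finset (Fin n)) : Prop := ∀ i, ¬ Y.P S (Y.p i) (Y.q i)

def Joins (S : Finset (Fin n)) (k : Fin n) (a b : A) : Prop :=
  (Y.P S a (Y.p k) ∧ Y.P S b (Y.q k)) ∨ (Y.P S a (Y.q k) ∧ Y.P S b (Y.p k))

def Homogeneous (S : Finset (Fin n)) : Prop :=
  ∀ i ∉ S, ∀ j ∈ S, ∀ c a b, Y.Joins S i c a → Y.Joins S j c b →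
    ¬ Relation.ReflTransGen (fun x y => ¬ Y.P S y c ∧ ∃ k, Y.Joins S k x y) a b

lemma Joins.symm {S : Finset (Fin n)} {k : Fin n} {a b : A} (h : Y.Joins S k a b) :
    Y.Joins S k b a := h.elim (fun h => Or.inr h.symm) (fun h => Or.inl h.symm)

lemma Joins.congr {S : Finset (Fin n)} {k : Fin n} {a b a' b' : A} (h : Y.Joins S k a b)
    (ha : Y.P S a a') (hb : Y.P S b b') : Y.Joins S k a' b' :=
  h.imp (fun h => ⟨(Y.P S).trans ((Y.P S).symm ha) h.1, (Y.P S).trans ((Y.P S).symm hb) h.2⟩)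
    (fun h => ⟨(Y.P S).trans ((Y.P S).symm ha) h.1, (Y.P S).trans ((Y.P S).symm hb) h.2⟩)

lemma joins_pq (S : Finset (Fin n)) (k : Fin n) : Y.Joins S k (Y.p k) (Y.q k) :=
  Or.inl ⟨(Y.P S).refl _, (Y.P S).refl _⟩

lemma Joins.jn {S F : Finset (Fin n)} {k : Fin n} {a b : A} (h : Y.Joins S k a b) (hk : k ∈ F) :
    Y.Jn S F a b :=
  Jn1_le (fun _ _ => Y.Jn_base F) (Y.Jn_edge S hk)
    (Or.inr (h.imp (fun h => ⟨h.1, (Y.P S).symm h.2⟩) (fun h => ⟨h.1, (Y.P S).symm h.2⟩)))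

lemma Joins.ne {S : Finset (Fin n)} (hS : Y.Adequate S) {k : Fin n} {a b : A}
    (h : Y.Joins S k a b) : ¬ Y.P S a b := fun g => hS k <|
  h.elim (fun h => (Y.P S).trans ((Y.P S).symm h.1) ((Y.P S).trans g h.2))
    (fun h => (Y.P S).trans ((Y.P S).symm h.2) ((Y.P S).trans ((Y.P S).symm g) h.1))

/-- Walks of given length. -/
def St (S F : Finset (Fin n)) : ℕ → A → A → Prop
  | 0, a, b => Y.P S a b
  | m + 1, a, b => ∃ c, St S F m a c ∧ ∃ k ∈ F, Y.Joins S k c b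

lemma St.congr {S F : Finset (Fin n)} {m : ℕ} {a b b' : A} (h : Y.St S F m a b)
    (hb : Y.P S b b') : Y.St S F m a b' := by
  cases m with
  | zero => exact (Y.P S).trans h hb
  | succ m =>
    obtain ⟨c, h1, k, hk, h2⟩ := h
    exact ⟨c, h1, k, hk, h2.congr Y ((Y.P S).refl _) hb⟩

lemma exists_St {S F : Finset (Fin n)} {a b : A} (h : Y.Jn S F a b) : ∃ m, Y.St S F m a b := by
  have : (∃ m, Y.St S F m a a) = ∃ m, Y.St S F m a b := by
    refine Y.Jn_fun (fun b => ∃ m, Y.St S F m a b) (fun x y g => propext ?_)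
      (fun i hi => propext ?_) h
    · exact ⟨fun ⟨m, h⟩ => ⟨m, h.congr Y g⟩, fun ⟨m, h⟩ => ⟨m, h.congr Y ((Y.P S).symm g)⟩⟩
    · exact ⟨fun ⟨m, h⟩ => ⟨m + 1, _, h, i, hi, Y.joins_pq S i⟩,
        fun ⟨m, h⟩ => ⟨m + 1, _, h, i, hi, (Y.joins_pq S i).symm Y⟩⟩
  exact this ▸ ⟨0, (Y.P S).refl a⟩

/-- Walks avoiding the circle of `c`. -/
def Av (S : Finset (Fin n)) (c : A) : A → A → Prop :=
  Relation.ReflTransGen fun x y => ¬ Y.P S x c ∧ ¬ Y.P S y c ∧ (Y.P S x y ∨ ∃ k, Y.Joins S k x y)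

lemma Av.symm {S : Finset (Fin n)} {c a b : A} (h : Y.Av S c a b) : Y.Av S c b a := by
  induction h with
  | refl => exact Relation.ReflTransGen.refl
  | tail _ g ih =>
    exact Relation.ReflTransGen.head
      ⟨g.2.1, g.1, g.2.2.imp (Y.P S).symm fun ⟨k, hk⟩ => ⟨k, hk.symm Y⟩⟩ ih

lemma Homogeneous.av {S : Finset (Fin n)} (h : Y.Homogeneous S) {i j : Fin n} (hi : i ∉ S)
    (hj : j ∈ S) {c a b : A} (ha : Y.Joins S i c a) (hb : Y.Joins S j c b) : ¬ Y.Av S c a b := by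
  intro hab
  have : ∃ b', Y.P S b b' ∧
      Relation.ReflTransGen (fun x y => ¬ Y.P S y c ∧ ∃ k, Y.Joins S k x y) a b' := by
    clear hb
    induction hab with
    | refl => exact ⟨a, (Y.P S).refl a, Relation.ReflTransGen.refl⟩
    | tail _ h2 ih =>
      obtain ⟨b', h3, h4⟩ := ih
      rcases h2.2.2 with h5 | ⟨k, hk⟩
      · exact ⟨b', (Y.P S).trans ((Y.P S).symm h5) h3, h4⟩
      · exact ⟨_, (Y.P S).refl _, h4.tail ⟨h2.2.1, k, hk.congr Y h3 ((Y.P S).refl _)⟩⟩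
  obtain ⟨b', h1, h2⟩ := this
  exact h i hi j hj c a b' ha (hb.congr Y ((Y.P S).refl _) h1) h2

/-- First arrival of a walk at the circle of `c`. -/
lemma St.last {S F : Finset (Fin n)} {m : ℕ} {a b c : A} (h : Y.St S F m a b) (ha : ¬ Y.P S a c) :
    (¬ Y.P S b c ∧ Y.Av S c a b) ∨ ∃ x, ∃ k ∈ F, Y.Joins S k c x ∧ Y.Av S c a x := by
  induction m generalizing b with
  | zero =>
    have hb : ¬ Y.P S b c := fun g => ha ((Y.P S).trans h g)
    exact Or.inl ⟨hb, Relation.ReflTransGen.single ⟨ha, hb, Or.inl h⟩⟩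
  | succ m ih =>
    obtain ⟨x, h1, k, hk, h2⟩ := h
    rcases ih h1 with h3 | h3
    · by_cases hb : Y.P S b c
      · exact Or.inr ⟨x, k, hk, (h2.symm Y).congr Y hb ((Y.P S).refl _), h3.2⟩
      · exact Or.inl ⟨hb, h3.2.tail ⟨h3.1, hb, Or.inr ⟨k, h2⟩⟩⟩
    · exact Or.inr h3

lemma St.short {S F : Finset (Fin n)} {m : ℕ} {r a c : A} (h : Y.St S F m r a)
    (hm : ∀ m', Y.St S F m' r c → m ≤ m') (ha : ¬ Y.P S a c) : Y.Av S c r a := by
  induction m generalizing a with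
  | zero =>
    exact Relation.ReflTransGen.single
      ⟨fun g => ha ((Y.P S).trans ((Y.P S).symm h) g), ha, Or.inl h⟩
  | succ m ih =>
    obtain ⟨x, h1, k, hk, h2⟩ := h
    have hx : ¬ Y.P S x c := fun g => by have := hm m (h1.congr Y g); omega
    exact (ih h1 (fun m' g => by have := hm m' g; omega) hx).tail ⟨hx, ha, Or.inr ⟨k, h2⟩⟩

/-- The canonical labelling rooted at `r`. -/
structure Lab (S : Finset (Fin n)) (r : A) where
  h : A → ℕ
  l : A → Bool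
  l_inv : ∀ a b, Y.P S a b → l a = l b
  la : ∀ a b, l a = true → Y.Jn S Sᶜ a b → ¬ Y.P S a b → h a < h b ∧ l b = false
  lb : ∀ a b, l a = false → Y.Jn S S a b → ¬ Y.P S a b → h a < h b ∧ l b = true
  lx : ∀ a, ∃ b, Y.Jn S S a b ∧ l b = false
  lk : ∀ a, Y.Jn S Sᶜ r a → l a = false

lemma exists_lab {S : Finset (Fin n)} (had : Y.Adequate S) (hS : Y.Homogeneous S) (r : A) :
    Nonempty (Y.Lab S r) := by
  let base : A → A := fun a =>
    if Y.Jn S Finset.univ r a then r else (Quotient.mk (Y.Jn S Finset.univ) a).out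
  have hb1 : ∀ a, Y.Jn S Finset.univ (base a) a := by
    intro a
    simp only [base]
    split_ifs with h
    · exact h
    · exact Quotient.mk_out (s := Y.Jn S Finset.univ) a
  have hb2 : ∀ a b, Y.Jn S Finset.univ a b → base a = base b := by
    intro a b h
    have : Y.Jn S Finset.univ r a ↔ Y.Jn S Finset.univ r b :=
      ⟨fun g => (Y.Jn _ _).trans g h, fun g => (Y.Jn _ _).trans g ((Y.Jn _ _).symm h)⟩
    simp only [base, this, Quotient.sound h]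
  let h : A → ℕ := fun a => Nat.find (Y.exists_St (hb1 a))
  have h1 : ∀ a, Y.St S Finset.univ (h a) (base a) a := fun a => Nat.find_spec (Y.exists_St (hb1 a))
  have h2 : ∀ a m, Y.St S Finset.univ m (base a) a → h a ≤ m := fun a m g => Nat.find_min' _ g
  let Ty : Finset (Fin n) → A → Prop := fun F c =>
    ¬ Y.P S (base c) c ∧ ∃ x, ∃ k ∈ F, Y.Joins S k c x ∧ Y.Av S c (base c) x
  have t1 : ∀ c, Ty Sᶜ c → ¬ Ty S c := by
    rintro c ⟨_, x, k, hk, g1, g2⟩ ⟨_, x', k', hk', g1', g2'⟩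
    exact hS.av Y (Finset.mem_compl.1 hk) hk' g1 g1' ((g2.symm Y).trans g2')
  have t3 : ∀ F m c, Y.Jn S F m c → ¬ Y.P S m c → h m ≤ h c → Ty F c := by
    intro F m c g1 g2 g3
    have e := hb2 m c (Y.Jn_mono (Finset.subset_univ F) g1)
    have g4 : Y.Av S c (base c) m :=
      e ▸ (h1 m).short Y (fun m' g => g3.trans (h2 c m' (e ▸ g))) g2
    refine ⟨fun g => ?_, ?_⟩
    · have h3 : h m = 0 := by have := h2 c 0 g; omega
      have h4 := h1 m
      rw [h3, e] at h4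
      exact g2 ((Y.P S).trans ((Y.P S).symm h4) g)
    · obtain ⟨l, hl⟩ := Y.exists_St g1
      rcases hl.last Y g2 with g5 | ⟨x, k, hk, g5, g6⟩
      · exact absurd ((Y.P S).refl c) g5.1
      · exact ⟨x, k, hk, g5, g4.trans g6⟩
  have t4 : ∀ c, Ty S c → ∃ x, Y.Jn S S c x ∧ h x < h c := by
    intro c g
    have h3 := h1 c
    obtain h0 | ⟨m, h0⟩ : h c = 0 ∨ ∃ m, h c = m + 1 := by
      cases h c
      · exact Or.inl rfl
      · exact Or.inr ⟨_, rfl⟩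
    · rw [h0] at h3; exact absurd h3 g.1
    · rw [h0] at h3
      obtain ⟨x, g1, k, _, g2⟩ := h3
      have e := hb2 x c (g2.jn Y (Finset.mem_univ k))
      have g3 := h2 x m (e ▸ g1)
      by_cases hk : k ∈ S
      · exact ⟨x, (g2.symm Y).jn Y hk, by omega⟩
      · exact absurd g (t1 c ⟨g.1, x, k, Finset.mem_compl.2 hk, g2.symm Y,
          g1.short Y (fun m' g4 => by have := h2 c m' g4; omega) (g2.ne Y had)⟩)
  have tinv : ∀ a b, Y.P S a b → Ty S a → Ty S b := by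
    rintro a b g ⟨g1, x, k, hk, g2, g3⟩
    rw [hb2 a b (Y.Jn_base _ g)] at g1 g3
    refine ⟨fun g4 => g1 ((Y.P S).trans g4 ((Y.P S).symm g)), x, k, hk,
      g2.congr Y g ((Y.P S).refl _), Relation.ReflTransGen.mono ?_ _ _ g3⟩
    rintro u v ⟨g5, g6, g7⟩
    exact ⟨fun g8 => g5 ((Y.P S).trans g8 ((Y.P S).symm g)),
      fun g8 => g6 ((Y.P S).trans g8 ((Y.P S).symm g)), g7⟩
  refine ⟨⟨h, fun a => decide (Ty S a), fun a b g => ?_, fun a b g1 g2 g3 => ?_,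
    fun a b g1 g2 g3 => ?_, fun a => ?_, fun a g => ?_⟩⟩
  · simp only [decide_eq_decide]
    exact ⟨tinv a b g, tinv b a ((Y.P S).symm g)⟩
  · simp only [decide_eq_true_eq, decide_eq_false_iff_not] at g1 ⊢
    have : h a < h b := by
      by_contra g4
      exact t1 a (t3 _ b a ((Y.Jn _ _).symm g2) (fun g5 => g3 ((Y.P S).symm g5)) (by omega)) g1
    exact ⟨this, t1 b (t3 _ a b g2 g3 this.le)⟩
  · simp only [decide_eq_true_eq, decide_eq_false_iff_not] at g1 ⊢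
    have : h a < h b := by
      by_contra g4
      exact g1 (t3 _ b a ((Y.Jn _ _).symm g2) (fun g5 => g3 ((Y.P S).symm g5)) (by omega))
    exact ⟨this, t3 _ a b g2 g3 this.le⟩
  · simp only [decide_eq_false_iff_not]
    induction hn : h a using Nat.strong_induction_on generalizing a with
    | _ m ih =>
      by_cases g : Ty S a
      · obtain ⟨x, g1, g2⟩ := t4 a g
        obtain ⟨b, g3, g4⟩ := ih (h x) (hn ▸ g2) x rfl
        exact ⟨b, (Y.Jn _ _).trans g1 g3, g4⟩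
      · exact ⟨a, (Y.Jn _ _).refl a, g⟩
  · simp only [decide_eq_false_iff_not]
    have e : base a = r := if_pos (Y.Jn_mono (Finset.subset_univ _) g)
    by_cases g1 : Y.P S r a
    · exact fun g2 => g2.1 (e ▸ g1)
    · have e' : base r = r := if_pos ((Y.Jn _ _).refl r)
      have : h r = 0 := Nat.le_zero.1 (h2 r 0 (e'.symm ▸ (Y.P S).refl r))
      exact t1 a (t3 _ r a g g1 (by omega))

end Sys

end Pool.Agent.MP_f5aac0_gt

/-!
Cycles and cocycles mod 2 attached to a homogeneously adequate state, and their pairing.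
-/

namespace Pool.Agent.MP_f5aac0_gt

open Classical symmDiff

section Tr
variable {A : Type}

/-- `T` meets exactly the classes in `R`, each once. -/
def Tr (J : Setoid A) (R : A → Prop) (T : Multiset A) : Prop := ND J T ∧ ∀ a, Hit J T a ↔ R a

lemma map_coarse {R J : Setoid A} (h : ∀ a b, R a b → J a b) {T T' : Multiset A}
    (e : T.map (Quotient.mk R) = T'.map (Quotient.mk R)) :
    T.map (Quotient.mk J) = T'.map (Quotient.mk J) := by
  have := congrArg (Multiset.map (Quotient.map (sa := R) (sb := J) id fun a b g => h a b g)) e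
  simpa [Multiset.map_map] using this

lemma tr_congr {J : Setoid A} (R : A → Prop) {T T' : Multiset A}
    (e : T.map (Quotient.mk J) = T'.map (Quotient.mk J)) : Tr J R T ↔ Tr J R T' := by
  simp only [Tr, ND, hit_iff, e]

lemma tr_cons {J : Setoid A} (R : A → Prop) (T : Multiset A) {a b : A} (h : J a b) :
    Tr J R (a ::ₘ T) ↔ Tr J R (b ::ₘ T) :=
  tr_congr R (by rw [Multiset.map_cons, Multiset.map_cons, Quotient.sound h])

lemma sum_erase_congr {M : Type} [AddCommMonoid M] {R : Setoid A} (f : A → Multiset A → M)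
    (hf : ∀ a b T T', R a b → T.map (Quotient.mk R) = T'.map (Quotient.mk R) → f a T = f b T')
    {T T' : Multiset A} (h : T.map (Quotient.mk R) = T'.map (Quotient.mk R)) :
    (T.map fun t => f t (T.erase t)).sum = (T'.map fun t => f t (T'.erase t)).sum := by
  have key : ∀ T : Multiset A, (T.map fun t => f t (T.erase t)).sum =
      ((T.map (Quotient.mk R)).map fun c =>
        f c.out (((T.map (Quotient.mk R)).erase c).map Quotient.out)).sum := by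
    intro T
    rw [Multiset.map_map]
    congr 1
    refine Multiset.map_congr rfl fun t ht => hf _ _ _ _ (R.symm (Quotient.mk_out t)) ?_
    rw [Multiset.map_erase_of_mem _ _ ht]
    simp [Multiset.map_map]
  rw [key, key, h]

lemma Hit.mono {R J : Setoid A} (h : ∀ a b, R a b → J a b) {T : Multiset A} {a : A}
    (g : Hit R T a) : Hit J T a := by
  obtain ⟨t, ht, g⟩ := g
  exact ⟨t, ht, h _ _ g⟩

/-- A transversal of a join, in terms of the finer relation. -/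
lemma tr_join {J J' : Setoid A} {p q : A} (h : ∀ a b, J' a b ↔ Jn1 J p q a b) (hpq : ¬ J p q)
    (T : Multiset A) : (if Tr J' (fun _ => True) T then (1 : ZMod 2) else 0) =
      if ND J T ∧ ∃ s, ∀ a, ¬ Hit J T a ↔ J a s then
        (if Hit J T p then 0 else 1) + (if Hit J T q then 0 else 1) else 0 := by
  have hle : ∀ a b, J a b → J' a b := fun a b g => (h a b).2 (Or.inl g)
  have key : ∀ a, Hit J' T a ↔
      Hit J T a ∨ (J a p ∧ Hit J T q) ∨ (J a q ∧ Hit J T p) := by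
    intro a
    constructor
    · rintro ⟨t, ht, g⟩
      rcases (h _ _).1 g with g | g | g
      · exact Or.inl ⟨t, ht, g⟩
      · exact Or.inr (Or.inl ⟨g.1, t, ht, g.2⟩)
      · exact Or.inr (Or.inr ⟨g.1, t, ht, g.2⟩)
    · rintro (g | ⟨g, t, ht, g'⟩ | ⟨g, t, ht, g'⟩)
      · exact g.mono hle
      · exact ⟨t, ht, (h _ _).2 (Or.inr (Or.inl ⟨g, g'⟩))⟩
      · exact ⟨t, ht, (h _ _).2 (Or.inr (Or.inr ⟨g, g'⟩))⟩
  have hnd : ND J' T → ¬ (Hit J T p ∧ Hit J T q) := by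
    rintro h1 ⟨⟨t, ht, h2⟩, ⟨s, hs, h3⟩⟩
    have : t = s := ((nd_iff _ _).1 h1).2 t ht s hs
      ((h _ _).2 (Or.inr (Or.inl ⟨J.symm h2, h3⟩)))
    subst this
    exact hpq (J.trans h2 (J.symm h3))
  by_cases h1 : Tr J' (fun _ => True) T
  · have h2 := hnd h1.1
    have h3 : ∀ a, Hit J T a ∨ (J a p ∧ Hit J T q) ∨ (J a q ∧ Hit J T p) :=
      fun a => (key a).1 ((h1.2 a).2 trivial)
    rw [if_pos h1]
    by_cases hp : Hit J T p
    · have hq : ¬ Hit J T q := fun g => h2 ⟨hp, g⟩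
      have h4 : ∀ a, ¬ Hit J T a → J a q := fun a g => by
        have := h3 a
        tauto
      rw [if_pos ⟨h1.1.mono hle, q, fun a => ⟨h4 a, fun g g' => hq (g'.congr g)⟩⟩]
      simp [hp, hq]
    · have hq : Hit J T q := by
        have := h3 q
        tauto
      have h4 : ∀ a, ¬ Hit J T a → J a p := fun a g => by
        have := h3 a
        tauto
      rw [if_pos ⟨h1.1.mono hle, p, fun a => ⟨h4 a, fun g g' => hp (g'.congr g)⟩⟩]
      simp [hp, hq]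
  · rw [if_neg h1]
    split_ifs with h2 hp hq hq
    · rfl
    · exfalso
      obtain ⟨h2, s, hs⟩ := h2
      refine h1 ⟨nd_join h h2 fun g => hq g.2, fun a => iff_true_intro ((key a).2 ?_)⟩
      by_cases ha : Hit J T a
      · exact Or.inl ha
      · exact Or.inr (Or.inr ⟨J.trans ((hs a).1 ha) (J.symm ((hs q).1 hq)), hp⟩)
    · exfalso
      obtain ⟨h2, s, hs⟩ := h2
      refine h1 ⟨nd_join h h2 fun g => hp g.1, fun a => iff_true_intro ((key a).2 ?_)⟩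
      by_cases ha : Hit J T a
      · exact Or.inl ha
      · exact Or.inr (Or.inl ⟨J.trans ((hs a).1 ha) (J.symm ((hs p).1 hp)), hq⟩)
    · decide
    · rfl

end Tr

namespace Sys

variable {n : ℕ} {A : Type} {Y : Sys n A} {S₀ : Finset (Fin n)} {r : A}

namespace Lab

variable (L : Y.Lab S₀ r)

include L in
lemma ab {a b : A} (h1 : Y.Jn S₀ S₀ᶜ a b) (h2 : Y.Jn S₀ S₀ a b) : Y.P S₀ a b := by
  by_contra h
  have h' : ¬ Y.P S₀ b a := fun g => h ((Y.P _).symm g)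
  cases ha : L.l a
  · have := L.lb a b ha h2 h
    have := L.la b a this.2 ((Y.Jn _ _).symm h1) h'
    omega
  · have := L.la a b ha h1 h
    have := L.lb b a this.2 ((Y.Jn _ _).symm h2) h'
    omega

/-- Components of A-edges that are not roots. -/
def R (a : A) : Prop := ∃ b, Y.Jn S₀ S₀ᶜ a b ∧ L.l b = true

end Lab

variable (Y S₀ r) in
/-- States that differ from `S₀` only at A-edges in the component of `r`. -/
def Ok (S : Finset (Fin n)) : Prop := S₀ ⊆ S ∧ ∀ i ∈ S, i ∉ S₀ → Y.Jn S₀ S₀ᶜ r (Y.p i)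

lemma sub_flip {S : Finset (Fin n)} (h : S₀ ⊆ S) : S₀ ∆ (S \ S₀) = S := by
  ext j
  have := @h j
  simp only [Finset.mem_symmDiff, Finset.mem_sdiff]
  tauto

lemma P_F {S : Finset (Fin n)} (h : S₀ ⊆ S) {a b : A} (g : Y.P S a b) : Y.Jn S₀ (S \ S₀) a b :=
  Y.P_le_Jn _ _ (by rwa [sub_flip h])

lemma F_A {S : Finset (Fin n)} {a b : A} (g : Y.Jn S₀ (S \ S₀) a b) : Y.Jn S₀ S₀ᶜ a b :=
  Y.Jn_mono (fun j hj => by simpa using (Finset.mem_sdiff.1 hj).2) g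

lemma P_A {S : Finset (Fin n)} (h : S₀ ⊆ S) (a b : A) (g : Y.P S a b) : Y.Jn S₀ S₀ᶜ a b :=
  F_A (P_F h g)

lemma P_J {S : Finset (Fin n)} (h : S₀ ⊆ S) (a b : A) (g : Y.P S a b) : Y.Jn S₀ S a b :=
  Y.Jn_mono Finset.sdiff_subset (P_F h g)

lemma Ok.out {S : Finset (Fin n)} (h : Y.Ok S₀ r S) {a : A} (ha : ¬ Y.Jn S₀ S₀ᶜ r a) (b : A) :
    Y.P S a b ↔ Y.P S₀ a b := by
  have := Y.P_out (S := S₀) (F := S \ S₀) (fun a => Y.Jn S₀ S₀ᶜ r a)
    (fun a b g g' => (Y.Jn _ _).trans g' (Y.Jn_base _ g)) (fun i hi => by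
      have h1 := h.2 i (Finset.mem_sdiff.1 hi).1 (Finset.mem_sdiff.1 hi).2
      exact ⟨h1, (Y.Jn _ _).trans h1 (Y.Jn_edge _ (by simpa using (Finset.mem_sdiff.1 hi).2))⟩)
    ha b
  rwa [sub_flip h.1] at this

namespace Lab

variable (L : Y.Lab S₀ r)

include L in
lemma jdesc {S : Finset (Fin n)} (h : Y.Ok S₀ r S) {a b : A} (g : Y.Jn S₀ S a b) :
    Y.Jn S₀ S₀ a b ∨ ∃ a' b', Y.Jn S₀ S₀ᶜ r a' ∧ Y.Jn S₀ S₀ᶜ r b' ∧ Y.Jn S₀ S₀ a a' ∧
      Y.Jn S₀ (S \ S₀) a' b' ∧ Y.Jn S₀ S₀ b' b := by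
  let Q : Setoid A := ⟨fun a b => Y.Jn S₀ S₀ a b ∨ ∃ a' b', Y.Jn S₀ S₀ᶜ r a' ∧ Y.Jn S₀ S₀ᶜ r b' ∧
      Y.Jn S₀ S₀ a a' ∧ Y.Jn S₀ (S \ S₀) a' b' ∧ Y.Jn S₀ S₀ b' b, by
    refine ⟨fun a => Or.inl ((Y.Jn _ _).refl a), ?_, ?_⟩
    · rintro a b (g | ⟨a', b', g1, g2, g3, g4, g5⟩)
      · exact Or.inl ((Y.Jn _ _).symm g)
      · exact Or.inr ⟨b', a', g2, g1, (Y.Jn _ _).symm g5, (Y.Jn _ _).symm g4, (Y.Jn _ _).symm g3⟩
    · rintro a b c (g | ⟨a', b', g1, g2, g3, g4, g5⟩) (f | ⟨a'', b'', f1, f2, f3, f4, f5⟩)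
      · exact Or.inl ((Y.Jn _ _).trans g f)
      · exact Or.inr ⟨a'', b'', f1, f2, (Y.Jn _ _).trans g f3, f4, f5⟩
      · exact Or.inr ⟨a', b', g1, g2, g3, g4, (Y.Jn _ _).trans g5 f⟩
      · exact Or.inr ⟨a', b'', g1, f2, g3, (Y.Jn _ _).trans g4 ((Y.Jn _ _).trans (Y.Jn_base _
          (L.ab ((Y.Jn _ _).trans ((Y.Jn _ _).symm g2) f1) ((Y.Jn _ _).trans g5 f3))) f4), f5⟩⟩
  refine Y.Jn_ind Q (fun a b g => Or.inl (Y.Jn_base _ g)) (fun i hi => ?_) g
  by_cases h0 : i ∈ S₀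
  · exact Or.inl (Y.Jn_edge _ h0)
  · have h1 := h.2 i hi h0
    exact Or.inr ⟨_, _, h1, (Y.Jn _ _).trans h1 (Y.Jn_edge _ (by simpa using h0)),
      (Y.Jn _ _).refl _, Y.Jn_edge _ (Finset.mem_sdiff.2 ⟨hi, h0⟩), (Y.Jn _ _).refl _⟩

include L in
lemma jK {S : Finset (Fin n)} (h : Y.Ok S₀ r S) {a b : A} (ha : Y.Jn S₀ S₀ᶜ r a)
    (hb : Y.Jn S₀ S₀ᶜ r b) (g : Y.Jn S₀ S a b) : Y.Jn S₀ (S \ S₀) a b := by
  rcases L.jdesc h g with g | ⟨a', b', g1, g2, g3, g4, g5⟩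
  · exact Y.Jn_base _ (L.ab ((Y.Jn _ _).trans ((Y.Jn _ _).symm ha) hb) g)
  · exact (Y.Jn _ _).trans (Y.Jn_base _ (L.ab ((Y.Jn _ _).trans ((Y.Jn _ _).symm ha) g1) g3))
      ((Y.Jn _ _).trans g4 (Y.Jn_base _ (L.ab ((Y.Jn _ _).trans ((Y.Jn _ _).symm g2) hb) g5)))

lemma notR {a : A} (ha : Y.Jn S₀ S₀ᶜ r a) : ¬ L.R a := by
  rintro ⟨b, h1, h2⟩
  rw [L.lk b ((Y.Jn _ _).trans ha h1)] at h2
  exact absurd h2 (by simp)

/-- The background pattern of the labels `1`. -/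
def Bg (U : A → Prop) : Prop :=
  (∀ a, L.R a ↔ ∃ b, Y.Jn S₀ S₀ᶜ a b ∧ ¬ Y.Jn S₀ S₀ᶜ r b ∧ U b) ∧
    ∀ a b, ¬ Y.Jn S₀ S₀ᶜ r a → Y.Jn S₀ S₀ᶜ a b → U a → U b → Y.P S₀ a b

lemma bg_congr {U U' : A → Prop} (h : ∀ a, ¬ Y.Jn S₀ S₀ᶜ r a → (U a ↔ U' a)) (g : L.Bg U) :
    L.Bg U' := by
  refine ⟨fun a => (g.1 a).trans (exists_congr fun b => ?_), fun a b h1 h2 h3 h4 => ?_⟩
  · have := h b
    tauto
  · exact g.2 a b h1 h2 ((h a h1).2 h3)
      ((h b fun g' => h1 ((Y.Jn _ _).trans g' ((Y.Jn _ _).symm h2))).2 h4)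

lemma bg_l : L.Bg fun a => L.l a = true := by
  refine ⟨fun a => ⟨?_, ?_⟩, fun a b _ h2 h3 h4 => ?_⟩
  · rintro ⟨b, h1, h2⟩
    exact ⟨b, h1, fun g => by simp [L.lk b g] at h2, h2⟩
  · rintro ⟨b, h1, _, h2⟩
    exact ⟨b, h1, h2⟩
  · by_contra g
    simp [(L.la a b h3 h2 g).2] at h4

lemma bk_iff {S : Finset (Fin n)} (h : Y.Ok S₀ r S) {T : Multiset A} (hT : ND (Y.P S) T) :
    Tr (Y.Jn S₀ S₀ᶜ) L.R T ↔
      (∀ a, Y.Jn S₀ S₀ᶜ r a → ¬ Hit (Y.P S) T a) ∧ L.Bg (Hit (Y.P S) T) := by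
  constructor
  · rintro ⟨h1, h2⟩
    have hK : ∀ a, Y.Jn S₀ S₀ᶜ r a → ¬ Hit (Y.P S) T a := fun a ha g =>
      L.notR ha ((h2 a).1 (g.mono (P_A h.1)))
    refine ⟨hK, fun a => ?_, ?_⟩
    · rw [← h2]
      constructor
      · rintro ⟨t, ht, g⟩
        have : Hit (Y.P S) T t := ⟨t, ht, (Y.P S).refl t⟩
        exact ⟨t, g, fun g' => hK t g' this, this⟩
      · rintro ⟨b, g1, _, t, ht, g2⟩
        exact ⟨t, ht, (Y.Jn _ _).trans g1 (P_A h.1 _ _ g2)⟩
    · rintro a b ha hab ⟨t, ht, g1⟩ ⟨s, hs, g2⟩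
      have : t = s := ((nd_iff _ _).1 h1).2 t ht s hs ((Y.Jn _ _).trans
        ((Y.Jn _ _).symm (P_A h.1 _ _ g1)) ((Y.Jn _ _).trans hab (P_A h.1 _ _ g2)))
      subst this
      exact (h.out ha b).1 ((Y.P S).trans g1 ((Y.P S).symm g2))
  · rintro ⟨hK, h1, h2⟩
    have hT' := (nd_iff _ _).1 hT
    refine ⟨(nd_iff _ _).2 ⟨hT'.1, fun t ht s hs g => ?_⟩, fun a => ?_⟩
    · have g1 : Hit (Y.P S) T t := ⟨t, ht, (Y.P S).refl t⟩
      have g2 : ¬ Y.Jn S₀ S₀ᶜ r t := fun g' => hK t g' g1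
      exact hT'.2 t ht s hs ((h.out g2 s).2 (h2 t s g2 g g1 ⟨s, hs, (Y.P S).refl s⟩))
    · rw [h1]
      constructor
      · rintro ⟨t, ht, g⟩
        have : Hit (Y.P S) T t := ⟨t, ht, (Y.P S).refl t⟩
        exact ⟨t, g, fun g' => hK t g' this, this⟩
      · rintro ⟨b, g1, _, t, ht, g2⟩
        exact ⟨t, ht, (Y.Jn _ _).trans g1 (P_A h.1 _ _ g2)⟩

/-- Uniqueness of the background. -/
lemma out_unique {S : Finset (Fin n)} (h : Y.Ok S₀ r S) {u : A → Bool}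
    (hu : ∀ a b, Y.P S a b → u a = u b) (hb : L.Bg fun a => u a = true)
    (hx : ∀ a, ∃ b, Y.Jn S₀ S a b ∧ u b = false) [Fintype A] :
    ∀ a, ¬ Y.Jn S₀ S₀ᶜ r a → u a = L.l a := by
  by_contra hc
  push Not at hc
  obtain ⟨c, hc, hmax⟩ := Finset.exists_max_image
    (Finset.univ.filter fun a => ¬ Y.Jn S₀ S₀ᶜ r a ∧ u a ≠ L.l a) L.h
    (by obtain ⟨a, ha⟩ := hc; exact ⟨a, by simpa using ha⟩)
  simp only [Finset.mem_filter, Finset.mem_univ, true_and] at hc hmax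
  cases hl : L.l c
  · have huc : u c = true := by simpa [hl] using hc.2
    have hK : ∀ a', Y.Jn S₀ S₀ c a' → ¬ Y.Jn S₀ S₀ᶜ r a' := by
      intro a' g1 g2
      by_cases g3 : Y.P S₀ c a'
      · exact hc.1 ((Y.Jn _ _).trans g2 (Y.Jn_base _ ((Y.P _).symm g3)))
      · simpa [L.lk a' g2] using (L.lb c a' hl g1 g3).2
    obtain ⟨b, g1, g2⟩ := hx c
    have g3 : Y.Jn S₀ S₀ c b := by
      rcases L.jdesc h g1 with g | ⟨a', b', g4, _, g5, _⟩
      · exact g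
      · exact absurd g4 (hK a' g5)
    have g4 : ¬ Y.P S₀ c b := fun g => by
      have := hu c b ((h.out hc.1 b).2 g)
      simp [huc, g2] at this
    have g5 := L.lb c b hl g3 g4
    have := hmax b ⟨hK b g3, by simp [g2, g5.2]⟩
    omega
  · have huc : u c = false := by simpa [hl] using hc.2
    obtain ⟨b, g1, g2, g3⟩ := (hb.1 c).1 ⟨c, (Y.Jn _ _).refl c, hl⟩
    have g4 : ¬ Y.P S₀ c b := fun g => by
      have := hu c b ((h.out hc.1 b).2 g)
      simp [huc, g3] at this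
    have g5 := L.la c b hl g1 g4
    have := hmax b ⟨g2, by simp [g3, g5.2]⟩
    omega

variable (Y S₀ r) in
/-- Every component inside the root component carries exactly one circle labelled `x`. -/
def _root_.Pool.Agent.MP_f5aac0_gt.Sys.In (S : Finset (Fin n)) (u : A → Bool) : Prop :=
  (∀ a, Y.Jn S₀ S₀ᶜ r a → ∃ b, Y.Jn S₀ (S \ S₀) a b ∧ u b = false) ∧
    ∀ a b, Y.Jn S₀ S₀ᶜ r a → Y.Jn S₀ (S \ S₀) a b → u a = false → u b = false → Y.P S a b

lemma _root_.Pool.Agent.MP_f5aac0_gt.Sys.tr_reps [Fintype A] (y : Y.Enh) (J : Setoid A)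
    (hJ : ∀ a b, Y.P y.1.1 a b → J a b) : Tr J (fun _ => True) (Y.reps y) ↔
      (∀ a, ∃ b, J a b ∧ y.1.2 b = false) ∧
        ∀ a b, J a b → y.1.2 a = false → y.1.2 b = false → Y.P y.1.1 a b := by
  have h0 := (nd_iff _ _).1 (Y.nd_reps y)
  have h1 : ∀ t ∈ Y.reps y, y.1.2 t = false := fun t ht =>
    (Y.hit_reps y t).1 ⟨t, ht, (Y.P _).refl t⟩
  constructor
  · rintro ⟨g1, g2⟩
    refine ⟨fun a => ?_, fun a b hab ha hb => ?_⟩
    · obtain ⟨t, ht, g⟩ := (g2 a).2 trivial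
      exact ⟨t, g, h1 t ht⟩
    · obtain ⟨t, ht, g3⟩ := (Y.hit_reps y a).2 ha
      obtain ⟨s, hs, g4⟩ := (Y.hit_reps y b).2 hb
      have : t = s := ((nd_iff _ _).1 g1).2 t ht s hs
        (J.trans (J.symm (hJ _ _ g3)) (J.trans hab (hJ _ _ g4)))
      subst this
      exact (Y.P _).trans g3 ((Y.P _).symm g4)
  · rintro ⟨g1, g2⟩
    refine ⟨(nd_iff _ _).2 ⟨h0.1, fun t ht s hs g => h0.2 t ht s hs (g2 t s g (h1 t ht) (h1 s hs))⟩,
      fun a => iff_true_intro ?_⟩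
    obtain ⟨b, g3, g4⟩ := g1 a
    obtain ⟨t, ht, g5⟩ := (Y.hit_reps y b).2 g4
    exact ⟨t, ht, J.trans g3 (hJ _ _ g5)⟩

lemma in_iff {S : Finset (Fin n)} (h : Y.Ok S₀ r S) {u : A → Bool}
    (ho : ∀ a, ¬ Y.Jn S₀ S₀ᶜ r a → u a = L.l a) :
    ((∀ a, ∃ b, Y.Jn S₀ S a b ∧ u b = false) ∧
        ∀ a b, Y.Jn S₀ S a b → u a = false → u b = false → Y.P S a b) ↔ Y.In S₀ r S u := by
  have hK : ∀ a b, Y.Jn S₀ S₀ᶜ r a → Y.Jn S₀ S₀ a b → u b = false → Y.Jn S₀ S₀ᶜ r b := by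
    intro a b g1 g2 g3
    by_contra g4
    have g5 : ¬ Y.P S₀ a b := fun g => g4 ((Y.Jn _ _).trans g1 (Y.Jn_base _ g))
    have := (L.lb a b (L.lk a g1) g2 g5).2
    rw [← ho b g4, g3] at this
    exact absurd this (by simp)
  have hK' : ∀ a b, Y.Jn S₀ S₀ᶜ r a → Y.Jn S₀ S a b → u b = false → Y.Jn S₀ S₀ᶜ r b := by
    intro a b g1 g2 g3
    rcases L.jdesc h g2 with g | ⟨a', b', _, g4, _, _, g5⟩
    · exact hK a b g1 g g3
    · exact hK b' b g4 g5 g3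
  constructor
  · rintro ⟨g1, g2⟩
    refine ⟨fun a ha => ?_, fun a b _ hab => g2 a b (Y.Jn_mono Finset.sdiff_subset hab)⟩
    obtain ⟨b, g3, g4⟩ := g1 a
    exact ⟨b, L.jK h ha (hK' a b ha g3 g4) g3, g4⟩
  · rintro ⟨g1, g2⟩
    refine ⟨fun a => ?_, fun a b hab ha hb => ?_⟩
    · obtain ⟨b, g3, g4⟩ := L.lx a
      by_cases hb : Y.Jn S₀ S₀ᶜ r b
      · obtain ⟨c, g5, g6⟩ := g1 b hb
        exact ⟨c, (Y.Jn _ _).trans (Y.Jn_mono h.1 g3) (Y.Jn_mono Finset.sdiff_subset g5), g6⟩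
      · exact ⟨b, Y.Jn_mono h.1 g3, by rw [ho b hb, g4]⟩
    · by_cases hKa : Y.Jn S₀ S₀ᶜ r a
      · exact g2 a b hKa (L.jK h hKa (hK' a b hKa hab hb) hab) ha hb
      · have hKb : ¬ Y.Jn S₀ S₀ᶜ r b := fun g => hKa (hK' b a g ((Y.Jn _ _).symm hab) ha)
        rcases L.jdesc h hab with g | ⟨a', b', g4, _, g5, _⟩
        · refine (h.out hKa b).2 ?_
          by_contra g6
          have := (L.lb a b (by rw [← ho a hKa, ha]) g g6).2
          rw [← ho b hKb, hb] at this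
          exact absurd this (by simp)
        · exact absurd (hK a' a g4 ((Y.Jn _ _).symm g5) ha) hKa

noncomputable def zG (α : Finset (Fin n) → ZMod 2) (lam : Finset (Fin n) → A → ZMod 2)
    (S : Finset (Fin n)) (T : Multiset A) : ZMod 2 :=
  (if Tr (Y.Jn S₀ S₀ᶜ) L.R T then α S else 0) +
    (T.map fun t => if Tr (Y.Jn S₀ S₀ᶜ) L.R (T.erase t) then lam S t else 0).sum

variable (Y S₀ r) in
structure _root_.Pool.Agent.MP_f5aac0_gt.Sys.Dat (α : Finset (Fin n) → ZMod 2)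
    (lam : Finset (Fin n) → A → ZMod 2) : Prop where
  ok1 : ∀ S, α S ≠ 0 → Y.Ok S₀ r S
  ok2 : ∀ S t, lam S t ≠ 0 → Y.Ok S₀ r S ∧ Y.Jn S₀ S₀ᶜ r t
  inv : ∀ S a b, Y.P S a b → lam S a = lam S b
  ca : ∀ S, ∑ i ∈ S, (if Y.P S (Y.p i) (Y.q i) then
    lam (S.erase i) (Y.p i) + lam (S.erase i) (Y.q i) else α (S.erase i)) = 0
  cb : ∀ S a, ∑ i ∈ S, (if Y.P S (Y.p i) (Y.q i) then 0 else lam (S.erase i) a) = 0

variable {α : Finset (Fin n) → ZMod 2} {lam : Finset (Fin n) → A → ZMod 2}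

lemma zG_zero (hD : Y.Dat S₀ r α lam) {S : Finset (Fin n)} (h : ¬ Y.Ok S₀ r S) (T : Multiset A) :
    L.zG α lam S T = 0 := by
  have h1 : α S = 0 := by by_contra g; exact h (hD.ok1 S g)
  have h2 : ∀ t, lam S t = 0 := fun t => by by_contra g; exact h (hD.ok2 S t g).1
  simp [zG, h1, h2]

lemma zG_cons (S : Finset (Fin n)) (a : A) (T : Multiset A) :
    L.zG α lam S (a ::ₘ T) = (if Tr (Y.Jn S₀ S₀ᶜ) L.R (a ::ₘ T) then α S else 0) +
      ((if Tr (Y.Jn S₀ S₀ᶜ) L.R T then lam S a else 0) +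
        (T.map fun t => if Tr (Y.Jn S₀ S₀ᶜ) L.R (a ::ₘ T.erase t) then lam S t else 0).sum) := by
  rw [zG, Multiset.map_cons, Multiset.sum_cons, Multiset.erase_cons_head]
  congr 3
  refine Multiset.map_congr rfl fun t ht => ?_
  rw [Multiset.erase_cons_tail_of_mem ht]

variable [Fintype A]

noncomputable def zf (α : Finset (Fin n) → ZMod 2) (lam : Finset (Fin n) → A → ZMod 2)
    (x : Y.Enh) : ZMod 2 := L.zG α lam x.1.1 (Y.reps (Y.neg x))

lemma cyc_zf (hD : Y.Dat S₀ r α lam) : Y.Cyc (L.zf α lam) := by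
  refine Y.cyc_of _ (fun S T T' h => ?_) (fun S T h => ?_) (fun S T => ?_)
  · by_cases hS : Y.Ok S₀ r S
    · unfold zG
      rw [sum_erase_congr (fun t T => if Tr (Y.Jn S₀ S₀ᶜ) L.R T then lam S t else 0)
        (fun a b T T' g1 g2 => by
          simp only [tr_congr L.R (map_coarse (P_A hS.1) g2), hD.inv S a b g1]) h]
      simp only [tr_congr L.R (map_coarse (P_A hS.1) h)]
    · rw [L.zG_zero hD hS, L.zG_zero hD hS]
  · by_cases hS : Y.Ok S₀ r S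
    · have h1 : ¬ ND (Y.Jn S₀ S₀ᶜ) T := fun g => h (g.mono (P_A hS.1))
      unfold zG
      rw [if_neg fun g => h1 g.1, zero_add]
      refine Multiset.sum_eq_zero fun z hz => ?_
      obtain ⟨t, ht, rfl⟩ := Multiset.mem_map.1 hz
      split_ifs with g
      · by_contra g1
        apply h1
        rw [← Multiset.cons_erase ht, nd_cons]
        exact ⟨fun g2 => L.notR (hD.ok2 S t g1).2 ((g.2 t).1 g2), g.1⟩
      · rfl
    · exact L.zG_zero hD hS T
  · have h1 : ∀ i ∈ S, Y.ed S i (L.zG α lam (S.erase i)) T =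
        (if Tr (Y.Jn S₀ S₀ᶜ) L.R T then (if Y.P S (Y.p i) (Y.q i) then
          lam (S.erase i) (Y.p i) + lam (S.erase i) (Y.q i) else α (S.erase i)) else 0) +
        (T.map fun t => if Tr (Y.Jn S₀ S₀ᶜ) L.R (T.erase t) then
          (if Y.P S (Y.p i) (Y.q i) then 0 else lam (S.erase i) t) else 0).sum := by
      intro i hi
      unfold ed
      by_cases hp : Y.P S (Y.p i) (Y.q i)
      · simp only [hp, if_true, ite_self, Multiset.map_const', Multiset.sum_replicate, smul_zero,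
          add_zero]
        by_cases hS : Y.Ok S₀ r (S.erase i)
        · have h2 : Y.Jn S₀ S₀ᶜ (Y.q i) (Y.p i) := (Y.Jn _ _).symm
            (Y.Jn_edge _ (Finset.mem_compl.2 fun g => Finset.notMem_erase i S (hS.1 g)))
          rw [zG_cons, zG_cons]
          simp only [tr_cons L.R _ h2]
          have h3 : ∀ a b c d : ZMod 2, a + (b + c) + (a + (d + c)) = b + d := by decide
          rw [h3]
          split_ifs <;> simp
        · have h2 : ∀ t, lam (S.erase i) t = 0 := fun t => by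
            by_contra g; exact hS (hD.ok2 _ t g).1
          simp [L.zG_zero hD hS, h2]
      · simp only [hp, if_false]
        rfl
    rw [← Finset.sum_filter, Finset.filter_mem_eq_inter, Finset.univ_inter,
      Finset.sum_congr rfl h1, Finset.sum_add_distrib]
    have h2 : ∀ (M : Multiset A) (f : Fin n → A → ZMod 2),
        ∑ i ∈ S, (M.map (f i)).sum = (M.map fun t => ∑ i ∈ S, f i t).sum := by
      intro M f
      induction M using Multiset.induction_on with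
      | empty => simp
      | cons a M ih => simp [ih, Finset.sum_add_distrib]
    rw [h2, Multiset.sum_eq_zero, add_zero]
    · split_ifs
      · exact hD.ca S
      · simp
    · intro z hz
      obtain ⟨t, _, rfl⟩ := Multiset.mem_map.1 hz
      split_ifs
      · exact hD.cb S t
      · simp

omit [Fintype A] in
lemma _root_.Pool.Agent.MP_f5aac0_gt.hit_erase {R : Setoid A} {T : Multiset A} (hT : ND R T)
    {t : A} (ht : t ∈ T) (a : A) : Hit R (T.erase t) a ↔ Hit R T a ∧ ¬ R a t := by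
  obtain ⟨T', rfl⟩ := Multiset.exists_cons_of_mem ht
  rw [Multiset.erase_cons_head, hit_cons]
  have := (nd_cons _ _ _).1 hT
  constructor
  · exact fun g => ⟨Or.inr g, fun g' => this.1 (g.congr g')⟩
  · tauto

lemma _root_.Pool.Agent.MP_f5aac0_gt.Sys.hit_neg (x : Y.Enh) (a : A) :
    Hit (Y.P x.1.1) (Y.reps (Y.neg x)) a ↔ x.1.2 a = true :=
  (Y.hit_reps (Y.neg x) a).trans (by simp [neg])

lemma zf_ne (hD : Y.Dat S₀ r α lam) {x : Y.Enh} (h : L.zf α lam x ≠ 0) :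
    Y.Ok S₀ r x.1.1 ∧ L.Bg (fun a => x.1.2 a = true) ∧
      ((α x.1.1 ≠ 0 ∧ ∀ a, Y.Jn S₀ S₀ᶜ r a → x.1.2 a = false) ∨
        ∃ t, lam x.1.1 t ≠ 0 ∧ ∀ a, Y.Jn S₀ S₀ᶜ r a → (x.1.2 a = true ↔ Y.P x.1.1 a t)) := by
  have hS : Y.Ok S₀ r x.1.1 := by
    by_contra g; exact h (L.zG_zero hD g _)
  have hT : ND (Y.P x.1.1) (Y.reps (Y.neg x)) := Y.nd_reps (Y.neg x)
  refine ⟨hS, ?_⟩
  unfold zf zG at h
  by_cases h1 : (if Tr (Y.Jn S₀ S₀ᶜ) L.R (Y.reps (Y.neg x)) then α x.1.1 else 0) = 0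
  · rw [h1, zero_add] at h
    obtain ⟨t, ht, h2⟩ : ∃ t ∈ Y.reps (Y.neg x), (if Tr (Y.Jn S₀ S₀ᶜ) L.R
        ((Y.reps (Y.neg x)).erase t) then lam x.1.1 t else 0) ≠ 0 := by
      by_contra g
      push Not at g
      refine h (Multiset.sum_eq_zero fun z hz => ?_)
      obtain ⟨t, ht, rfl⟩ := Multiset.mem_map.1 hz
      exact g t ht
    rw [ne_eq, ite_eq_right_iff, Classical.not_imp, L.bk_iff hS (hT.erase t)] at h2
    obtain ⟨⟨h3, h4⟩, h5⟩ := h2
    have hK := (hD.ok2 _ t h5).2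
    refine ⟨L.bg_congr (fun a ha => ?_) h4, Or.inr ⟨t, h5, fun a ha => ?_⟩⟩
    · rw [hit_erase hT ht, hit_neg]
      exact and_iff_left fun g => ha ((Y.Jn _ _).trans hK ((Y.Jn _ _).symm (P_A hS.1 _ _ g)))
    · have := h3 a ha
      rw [hit_erase hT ht, hit_neg] at this
      refine ⟨fun g => by tauto, fun g => ?_⟩
      exact (hit_neg x a).1 ⟨t, ht, g⟩
  · rw [ite_eq_right_iff, Classical.not_imp, L.bk_iff hS hT] at h1
    obtain ⟨⟨h3, h4⟩, h5⟩ := h1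
    refine ⟨L.bg_congr (fun a _ => hit_neg x a) h4, Or.inl ⟨h5, fun a ha => ?_⟩⟩
    have := h3 a ha
    rw [hit_neg] at this
    simpa using this

lemma zf_zero (hD : Y.Dat S₀ r α lam) {x : Y.Enh} (hS : Y.Ok S₀ r x.1.1)
    (ho : ∀ a, ¬ Y.Jn S₀ S₀ᶜ r a → x.1.2 a = L.l a)
    (h0 : ∀ a, Y.Jn S₀ S₀ᶜ r a → x.1.2 a = false) : L.zf α lam x = α x.1.1 := by
  have hT : ND (Y.P x.1.1) (Y.reps (Y.neg x)) := Y.nd_reps (Y.neg x)
  unfold zf zG
  rw [if_pos, Multiset.sum_eq_zero, add_zero]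
  · intro z hz
    obtain ⟨t, ht, rfl⟩ := Multiset.mem_map.1 hz
    rw [ite_eq_right_iff]
    intro _
    by_contra g
    have := (hit_neg x t).1 ⟨t, ht, (Y.P _).refl t⟩
    simp [h0 t (hD.ok2 _ t g).2] at this
  · rw [L.bk_iff hS hT]
    exact ⟨fun a ha => by simp [hit_neg, h0 a ha],
      L.bg_congr (fun a ha => by rw [hit_neg, ho a ha]) L.bg_l⟩

lemma zf_one (hD : Y.Dat S₀ r α lam) {x : Y.Enh} (hS : Y.Ok S₀ r x.1.1)
    (ho : ∀ a, ¬ Y.Jn S₀ S₀ᶜ r a → x.1.2 a = L.l a) {c : A} (hc : Y.Jn S₀ S₀ᶜ r c)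
    (h0 : ∀ a, Y.Jn S₀ S₀ᶜ r a → (x.1.2 a = true ↔ Y.P x.1.1 a c)) :
    L.zf α lam x = lam x.1.1 c := by
  have hT : ND (Y.P x.1.1) (Y.reps (Y.neg x)) := Y.nd_reps (Y.neg x)
  obtain ⟨t, ht, htc⟩ := (hit_neg x c).2 ((h0 c hc).2 ((Y.P _).refl c))
  unfold zf zG
  rw [if_neg, zero_add, ← Multiset.cons_erase ht, Multiset.map_cons, Multiset.sum_cons,
    Multiset.erase_cons_head, if_pos, Multiset.sum_eq_zero, add_zero, hD.inv _ _ _ htc]
  · intro z hz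
    obtain ⟨s, hs, rfl⟩ := Multiset.mem_map.1 hz
    rw [ite_eq_right_iff]
    intro _
    by_contra g
    have h1 := (hit_erase hT ht s).1 ⟨s, hs, (Y.P _).refl s⟩
    rw [hit_neg, h0 s (hD.ok2 _ s g).2] at h1
    exact h1.2 ((Y.P _).trans h1.1 htc)
  · rw [L.bk_iff hS (hT.erase t)]
    refine ⟨fun a ha => ?_, L.bg_congr (fun a ha => ?_) L.bg_l⟩
    · rw [hit_erase hT ht, hit_neg, h0 a ha]
      exact fun g => g.2 ((Y.P _).trans g.1 htc)
    · rw [hit_erase hT ht, hit_neg, ho a ha]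
      exact (and_iff_left fun g => ha ((Y.Jn _ _).trans hc ((Y.Jn _ _).trans
        (P_A hS.1 _ _ htc) ((Y.Jn _ _).symm (P_A hS.1 _ _ g))))).symm
  · rw [L.bk_iff hS hT]
    exact fun g => g.1 c hc ⟨t, ht, htc⟩

/-- The terms that contribute to the pairing. -/
def W (𝓕 : Set (Finset (Fin n))) (x : Y.Enh) (i : Fin n) : Prop :=
  i ∉ x.1.1 ∧ insert i x.1.1 ∈ 𝓕 ∧ (∀ a, ¬ Y.Jn S₀ S₀ᶜ r a → x.1.2 a = L.l a) ∧
    x.1.2 (Y.p i) = x.1.2 (Y.q i) ∧ (x.1.2 (Y.p i) = true ↔ Y.P x.1.1 (Y.p i) (Y.q i)) ∧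
    Y.In S₀ r (insert i x.1.1) x.1.2

theorem good_of (had : Y.Adequate S₀) (hD : Y.Dat S₀ r α lam) (𝓕 : Set (Finset (Fin n)))
    (hF : ∀ S ∈ 𝓕, Y.Ok S₀ r S)
    (hc : ∀ S T, S₀ ⊆ S → ∑ i, (if (i ∉ S ∧ ¬ Y.P S (Y.p i) (Y.q i) ∧ insert i S ∈ 𝓕) ∧
      Tr (Y.Jn S₀ (insert i S)) (fun _ => True) T then (1 : ZMod 2) else 0) = 0)
    (hp : ∑ i, ∑ x, (if L.W 𝓕 x i then L.zf α lam x else 0) = 1) : Y.Good := by
  let F : Finset (Fin n) → Multiset A → ZMod 2 := fun S T =>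
    if S ∈ 𝓕 ∧ Tr (Y.Jn S₀ S) (fun _ => True) T then 1 else 0
  refine ⟨L.zf α lam, fun x => F x.1.1 (Y.reps x), L.cyc_zf hD,
    Y.cocyc_of F (fun S T T' h => ?_) (fun S T h => ?_) (fun S T => ?_), ?_⟩
  · by_cases hS : S ∈ 𝓕
    · simp only [F, tr_congr _ (map_coarse (P_J (hF S hS).1) h)]
    · simp [F, hS]
  · exact if_neg fun g => h (g.2.1.mono (P_J (hF S g.1).1))
  · have h1 : ∀ i, (if i ∈ S then 0 else Y.ed S i (F (insert i S)) T) =
        if (i ∉ S ∧ ¬ Y.P S (Y.p i) (Y.q i) ∧ insert i S ∈ 𝓕) ∧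
          Tr (Y.Jn S₀ (insert i S)) (fun _ => True) T then (1 : ZMod 2) else 0 := by
      intro i
      unfold ed
      by_cases hi : i ∈ S
      · simp [hi]
      · by_cases hl : Y.P S (Y.p i) (Y.q i)
        · have h2 : ∀ a : ZMod 2, a + a = 0 := by decide
          simp only [hi, hl, if_true, if_false, F, not_true_eq_false, false_and, and_false,
            tr_cons _ T (Y.Jn_edge S₀ (Finset.mem_insert_self i S)), h2]
        · simp [hi, hl, F]
    simp only [h1]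
    by_cases hS : S₀ ⊆ S
    · exact hc S T hS
    · refine Finset.sum_eq_zero fun i _ => if_neg ?_
      rintro ⟨⟨g1, g2, g3⟩, _⟩
      have g4 := hF _ g3
      have g5 : i ∈ S₀ := by
        by_contra g5
        exact hS fun j hj => (Finset.mem_insert.1 (g4.1 hj)).resolve_left fun e => g5 (e ▸ hj)
      exact had i (L.ab (P_A g4.1 _ _ (Y.merge_pq g1 g2)) (Y.Jn_edge _ g5))
  · refine Eq.trans ?_ hp
    unfold pair
    rw [Finset.sum_comm]
    refine Finset.sum_congr rfl fun i _ => Finset.sum_congr rfl fun x _ => ?_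
    by_cases hz : L.zf α lam x = 0
    · simp [hz]
    obtain ⟨hS, hb, -⟩ := L.zf_ne hD hz
    split_ifs with hW
    · obtain ⟨g1, g2, g3, g4, g5, g6⟩ := hW
      let y : Y.Enh := ⟨(insert i x.1.1, x.1.2), fun a b hab => by
        by_cases hl : Y.P x.1.1 (Y.p i) (Y.q i)
        · exact x.2 a b (Y.split_le g1 hl hab)
        · exact Jn1_le (R' := Setoid.ker x.1.2) (fun a b => x.2 a b) g4
            ((Y.merge_iff g1 hl a b).1 hab)⟩
      rw [Finset.sum_eq_single y]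
      · rw [if_pos ⟨g1, rfl, rfl, g4, g5⟩]
        have : F y.1.1 (Y.reps y) = 1 := if_pos ⟨g2, (tr_reps y _ (P_J (hF _ g2).1)).2
          ((L.in_iff (hF _ g2) g3).2 g6)⟩
        simp only [this, mul_one]
      · intro y' _ hy
        exact if_neg fun g => hy (Subtype.ext (Prod.ext g.2.1 g.2.2.1))
      · simp
    · refine Finset.sum_eq_zero fun y _ => ?_
      rw [ite_eq_right_iff]
      rintro ⟨g1, g2, g3, g4, g5⟩
      refine mul_eq_zero_of_right _ (if_neg ?_)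
      rintro ⟨g6, g7⟩
      have g8 := hF _ g6
      rw [tr_reps y _ (P_J g8.1)] at g7
      have g9 := L.out_unique g8 y.2 (by rw [g3]; exact hb) g7.1
      have g10 := (L.in_iff g8 g9).1 g7
      rw [g2] at g6
      rw [g2, g3] at g10
      rw [g3] at g9
      exact hW ⟨g1, g6, g9, g4, g5, g10⟩

end Lab

end Sys

end Pool.Agent.MP_f5aac0_gt
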