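import Mathlib

/-!
Link diagrams as planar diagram codes, integral Khovanov homology, homogeneously adequate states,
and the standard diagrams of connected sums and disjoint unions of unknots and Hopf links.
-/

namespace Pool.Agent.MP_f5aac0_gt

open Classical

/-- `M` has a direct summand isomorphic to `ℤ/2`. -/
def Z2Summand (M : Type) [AddCommGroup M] : Prop :=
  ∃ P Q : AddSubgroup M, IsCompl P Q ∧ Nonempty (P ≃+ ZMod 2)

/-- The homology `ker g / im f` has a direct summand isomorphic to `ℤ/2`. -/
def HasZ2 {A B C : Type} [AddCommGroup A] [AddCommGroup B] [AddCommGroup C]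
    (f : A →+ B) (g : B →+ C) : Prop :=
  Z2Summand (g.ker ⧸ f.range.addSubgroupOf g.ker)

/-- A diagram code: `n` crossings, `free` crossingless circles. The half-edges at crossing `i` are
`(i,0),(i,1),(i,2),(i,3)` in counterclockwise order, `(i,0),(i,2)` being the under-strand;
`edge` pairs the two halves of each edge of the diagram. -/
structure Diagram where
  n : ℕ
  free : ℕ
  edge : Fin n × ZMod 4 → Fin n × ZMod 4
  edge_edge : ∀ d, edge (edge d) = d
  edge_ne : ∀ d, edge d ≠ d

namespace Diagram

variable (D : Diagram)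

/-- Half-edges. -/
abbrev Dart : Type := Fin D.n × ZMod 4

/-- Next half-edge counterclockwise at the same crossing. -/
def rot (d : D.Dart) : D.Dart := (d.1, d.2 + 1)

/-- Genus zero: faces = crossings + 2 * components, i.e. `V - E + F = 2` on each component. -/
def Planar : Prop :=
  Nat.card (Quot fun a b : D.Dart => b = D.rot (D.edge a)) =
    D.n + 2 * Nat.card (Quot fun a b : D.Dart => b = D.edge a ∨ b = D.rot a)

/-- An orientation of the components with crossings: which half-edges point away from their
crossing. -/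
structure Orientation where
  out : D.Dart → Bool
  out_edge : ∀ d, out (D.edge d) = !out d
  out_opp : ∀ d, out (D.rot (D.rot d)) = !out d

/-- Half-edges and crossingless circles. -/
abbrev Arc : Type := D.Dart ⊕ Fin D.free

/-- The state `S` gives the crossings in `S` the B-smoothing (joining 0-3, 1-2) and the others the
A-smoothing (joining 0-1, 2-3). -/
def smooth (S : Finset (Fin D.n)) (d : D.Dart) : D.Dart :=
  (d.1, (if d.1 ∈ S then 3 else 1) - d.2)

/-- Lying on the same circle of the state `S`. -/
def SameCircle (S : Finset (Fin D.n)) : D.Arc → D.Arc → Prop :=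
  Relation.EqvGen fun a b =>
    ∃ d, a = Sum.inl d ∧ (b = Sum.inl (D.edge d) ∨ b = Sum.inl (D.smooth S d))

/-- `p i` and `q i` lie on the two different local strands at crossing `i`, in both smoothings. -/
def p (i : Fin D.n) : D.Arc := Sum.inl (i, 0)

/-- See `p`. -/
def q (i : Fin D.n) : D.Arc := Sum.inl (i, 2)

/-- Enhanced states: a state and a label (`true` = 1, `false` = x) on each of its circles. -/
def Enh : Type :=
  {x : Finset (Fin D.n) × (D.Arc → Bool) // ∀ a b, D.SameCircle x.1 a b → x.2 a = x.2 b}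

noncomputable instance : Fintype D.Enh := by
  unfold Enh
  infer_instance

/-- `y` occurs in the image of `x` under the edge map of the cube that changes crossing `i`:
comultiplication if a circle splits, multiplication if two circles merge. -/
def Inc (i : Fin D.n) (x y : D.Enh) : Prop :=
  i ∉ x.1.1 ∧ y.1.1 = insert i x.1.1 ∧
  (∀ a, ¬ D.SameCircle x.1.1 a (D.p i) → ¬ D.SameCircle x.1.1 a (D.q i) → y.1.2 a = x.1.2 a) ∧
  (D.SameCircle x.1.1 (D.p i) (D.q i) → (x.1.2 (D.p i), y.1.2 (D.p i), y.1.2 (D.q i)) ∈
    ({(true, true, false), (true, false, true), (false, false, false)} : Set (Bool × Bool × Bool))) ∧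
  (¬ D.SameCircle x.1.1 (D.p i) (D.q i) → (x.1.2 (D.p i), x.1.2 (D.q i), y.1.2 (D.p i)) ∈
    ({(true, true, true), (true, false, false), (false, true, false)} : Set (Bool × Bool × Bool)))

/-- Matrix coefficient of the Khovanov differential. -/
noncomputable def coef (x y : D.Enh) : ℤ :=
  ∑ i, if D.Inc i x y then (-1) ^ (x.1.1.filter (· < i)).card else 0

/-- Number of circles with label `b`. -/
noncomputable def circles (x : D.Enh) (b : Bool) : ℕ :=
  Nat.card {c : Quot (D.SameCircle x.1.1) // ∃ a, Quot.mk _ a = c ∧ x.1.2 a = b}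

variable {D}

/-- Number of positive crossings. -/
noncomputable def npos (o : D.Orientation) : ℕ :=
  (Finset.univ.filter fun i : Fin D.n => o.out (i, 0) = o.out (i, 3)).card

/-- Number of negative crossings. -/
noncomputable def nneg (o : D.Orientation) : ℕ :=
  (Finset.univ.filter fun i : Fin D.n => o.out (i, 0) ≠ o.out (i, 3)).card

/-- Homological degree. -/
noncomputable def hdeg (o : D.Orientation) (x : D.Enh) : ℤ := (x.1.1.card : ℤ) - nneg o

/-- Quantum degree. -/
noncomputable def qdeg (o : D.Orientation) (x : D.Enh) : ℤ :=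
  (D.circles x true : ℤ) - D.circles x false + x.1.1.card + npos o - 2 * nneg o

/-- The chain group in bidegree `(i, j)`: free on the enhanced states of that bidegree. -/
abbrev Chain (o : D.Orientation) (i j : ℤ) : Type :=
  {x : D.Enh // hdeg o x = i ∧ qdeg o x = j} → ℤ

/-- The differential between homological degrees `i` and `i'` (used for `i' = i + 1`). -/
noncomputable def dif (o : D.Orientation) (i i' j : ℤ) : Chain o i j →+ Chain o i' j :=
  (Matrix.mulVecLin fun y x => D.coef x.1 y.1 : Chain o i j →ₗ[ℤ] Chain o i' j).toAddMonoidHom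

variable (D)

/-- No loop in the state graph. -/
def Adequate (S : Finset (Fin D.n)) : Prop := ∀ i, ¬ D.SameCircle S (D.p i) (D.q i)

/-- In the state graph of `S`, the edge `k` joins the circle of `a` to the circle of `b`. -/
def Joins (S : Finset (Fin D.n)) (k : Fin D.n) (a b : D.Arc) : Prop :=
  (D.SameCircle S a (D.p k) ∧ D.SameCircle S b (D.q k)) ∨
    (D.SameCircle S a (D.q k) ∧ D.SameCircle S b (D.p k))

/-- Each block of the state graph has edges of one type: the far ends of an A-edge and a B-edge at
a circle `c` are never joined by a walk avoiding `c`. -/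
def Homogeneous (S : Finset (Fin D.n)) : Prop :=
  ∀ i ∉ S, ∀ j ∈ S, ∀ c a b, D.Joins S i c a → D.Joins S j c b →
    ¬ Relation.ReflTransGen (fun x y => ¬ D.SameCircle S y c ∧ ∃ k, D.Joins S k x y) a b

end Diagram

/-- `D` is the disjoint union of `D₁` and `D₂`. -/
def IsUnion (D₁ D₂ D : Diagram) : Prop :=
  D.free = D₁.free + D₂.free ∧ ∃ e : Fin D₁.n ⊕ Fin D₂.n ≃ Fin D.n,
    (∀ d, D.edge (e (Sum.inl d.1), d.2) = (e (Sum.inl (D₁.edge d).1), (D₁.edge d).2)) ∧
    (∀ d, D.edge (e (Sum.inr d.1), d.2) = (e (Sum.inr (D₂.edge d).1), (D₂.edge d).2))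

/-- `D` is the connected sum of `D₁` and `D₂` along the edge of `a` and the edge of `b`. -/
def IsSum (D₁ D₂ D : Diagram) : Prop :=
  D.free = D₁.free + D₂.free ∧ ∃ (e : Fin D₁.n ⊕ Fin D₂.n ≃ Fin D.n) (a : D₁.Dart) (b : D₂.Dart),
    D.edge (e (Sum.inl a.1), a.2) = (e (Sum.inr b.1), b.2) ∧
    D.edge (e (Sum.inl (D₁.edge a).1), (D₁.edge a).2) =
      (e (Sum.inr (D₂.edge b).1), (D₂.edge b).2) ∧
    (∀ d, d ≠ a → d ≠ D₁.edge a →
      D.edge (e (Sum.inl d.1), d.2) = (e (Sum.inl (D₁.edge d).1), (D₁.edge d).2)) ∧
    (∀ d, d ≠ b → d ≠ D₂.edge b →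
      D.edge (e (Sum.inr d.1), d.2) = (e (Sum.inr (D₂.edge d).1), (D₂.edge d).2))

/-- Diagrams built by disjoint unions and connected sums from crossingless circles, one-crossing
unknot diagrams and two-crossing Hopf diagrams. -/
inductive Elementary : Diagram → Prop
  | unlink (D : Diagram) : D.n = 0 → Elementary D
  | kink (D : Diagram) (c : ZMod 4) : D.n = 1 → c = 1 ∨ c = 3 →
      (∀ d, D.edge d = (d.1, c - d.2)) → Elementary D
  | hopf (D : Diagram) (c : ZMod 4) : D.n = 2 → c = 1 ∨ c = 3 →
      (∀ d, (D.edge d).1 ≠ d.1 ∧ (D.edge d).2 = c - d.2) → Elementary D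
  | union (D₁ D₂ D : Diagram) : IsUnion D₁ D₂ D → Elementary D₁ → Elementary D₂ → Elementary D
  | sum (D₁ D₂ D : Diagram) : IsSum D₁ D₂ D → Elementary D₁ → Elementary D₂ → Elementary D

end Pool.Agent.MP_f5aac0_gt
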